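import Pool.Agent.Helper18.EF.Star

/-! # The functions with `F' = P e^Q` satisfy the hypotheses `Sys` -/

set_option autoImplicit false

open Filter Topology Metric Set MeasureTheory Pool.Agent.Helper34.EF

namespace Pool.Agent.Helper18.EF

open Polynomial

variable {q p : ℕ} {α : ℂ} {P Q : ℂ[X]} {C c R : ℝ} {F : ℂ → ℂ}

theorem fin_bound {T : Set ℂ} (hT : T.Finite) : ∃ M : ℝ, 0 ≤ M ∧ ∀ s ∈ T, ‖s‖ ≤ M := by
  obtain ⟨M, hM⟩ := hT.isBounded.exists_norm_le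
  exact ⟨max M 0, le_max_right _ _, fun s hs => (hM s hs).trans (le_max_left _ _)⟩

/-- the global estimate, simplified -/
theorem Est.star2 (h : Est q p α P Q C c R)
    (hF : ∀ z, HasDerivAt F (P.eval z * Complex.exp (Q.eval z)) z) {a : ℂ → ℂ} {R2 : ℝ}
    (hl : Lim q α F a R2) {δ : ℝ} (hδ : 0 < δ) : ∃ R7 : ℝ, R ≤ R7 ∧ 3 ≤ R7 ∧
      ∀ z, R7 ≤ ‖z‖ → ∃ ω ∈ DD q α, ‖F z - gg P Q z - a ω‖ ≤ δ * ‖gg P Q z‖ + δ := by
  obtain ⟨C5, c6, R6, hC5, hc6, hR6, hR63, hs⟩ := h.star hF hl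
  refine ⟨max R6 (max (C5 / δ) (2 / (c6 * δ))), hR6.trans (le_max_left _ _),
    hR63.trans (le_max_left _ _), fun z hz => ?_⟩
  have h1 : R6 ≤ ‖z‖ := (le_max_left _ _).trans hz
  have h2 : C5 / δ ≤ ‖z‖ := ((le_max_left _ _).trans (le_max_right _ _)).trans hz
  have h3 : 2 / (c6 * δ) ≤ ‖z‖ := ((le_max_right _ _).trans (le_max_right _ _)).trans hz
  obtain ⟨ω, hω, h4⟩ := hs z h1
  refine ⟨ω, hω, h4.trans ?_⟩
  have hz0 : 0 < ‖z‖ := by linarith
  have h5 : ‖z‖ ≤ ‖z‖ ^ q := le_self_pow₀ (by linarith) (by have := h.hq; omega)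
  have h6 : 0 < ‖z‖ ^ q := by positivity
  have h7 : C5 / ‖z‖ ^ q ≤ δ := by
    rw [div_le_iff₀ hδ] at h2
    rw [div_le_iff₀ h6]
    nlinarith
  have h8 : 2 * Real.exp (-(c6 * ‖z‖ ^ q)) ≤ δ := by
    rw [div_le_iff₀ (by positivity)] at h3
    have e3 : 0 < c6 * ‖z‖ ^ q := by positivity
    have e4 : Real.exp (-(c6 * ‖z‖ ^ q)) ≤ 1 / (c6 * ‖z‖ ^ q) := by
      rw [Real.exp_neg, ← one_div]
      refine one_div_le_one_div_of_le e3 ?_
      linarith [Real.add_one_le_exp (c6 * ‖z‖ ^ q)]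
    have e5 : 1 / (c6 * ‖z‖ ^ q) ≤ δ / 2 := by
      rw [div_le_iff₀ e3]
      have : c6 * δ * ‖z‖ ≤ c6 * δ * ‖z‖ ^ q := by gcongr
      nlinarith
    linarith
  gcongr

theorem Est.in_up (h : Est q p α P Q C c R)
    (hF : ∀ z, HasDerivAt F (P.eval z * Complex.exp (Q.eval z)) z) :
    ∃ K1 : ℝ, ∀ K, K1 ≤ K → ∀ z, K ≤ ‖z‖ → ‖F z‖ ≤ Real.exp (K * ‖z‖ ^ q) := by
  have hC := h.hC
  have hp0 : (0 : ℝ) ≤ p := Nat.cast_nonneg p
  refine ⟨‖F 0‖ + 2 * C + p + 2, fun K hK z hz => ?_⟩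
  have hF0 := norm_nonneg (F 0)
  have hr1 : 1 ≤ ‖z‖ := by linarith
  set X := ‖z‖ ^ q with hX
  have hrX : ‖z‖ ≤ X := le_self_pow₀ hr1 (by have := h.hq; omega)
  have hX1 : 1 ≤ X := hr1.trans hrX
  have h1 := (convex_closedBall (0 : ℂ) ‖z‖).norm_image_sub_le_of_norm_deriv_le (𝕜 := ℂ)
    (f := F) (C := C * ‖z‖ ^ p * Real.exp (C * X)) (fun x _ => (hF x).differentiableAt)
    (fun x hx => by
      rw [mem_closedBall_zero_iff] at hx
      rw [(hF x).deriv, norm_mul, Complex.norm_exp]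
      have e1 := h.p_up x ‖z‖ hr1 hx
      have e2 := h.q_abs x ‖z‖ hr1 hx
      have e3 := Complex.re_le_norm (Q.eval x)
      gcongr
      exact e3.trans e2) (x := 0) (y := z) (by simp) (by simp)
  rw [sub_zero] at h1
  have h2 : C ≤ Real.exp (C * X) := by
    have := Real.add_one_le_exp (C * X)
    nlinarith
  have h3 : ‖z‖ ^ p * ‖z‖ ≤ Real.exp ((p + 1) * X) := by
    have e1 : ‖z‖ ≤ Real.exp X := by
      have := Real.add_one_le_exp X
      linarith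
    calc ‖z‖ ^ p * ‖z‖ = ‖z‖ ^ (p + 1) := (pow_succ _ _).symm
      _ ≤ Real.exp X ^ (p + 1) := by gcongr
      _ = _ := by
        rw [← Real.exp_nat_mul]
        push_cast
        rfl
  have h4 : C * ‖z‖ ^ p * Real.exp (C * X) * ‖z‖ ≤ Real.exp ((K - 1) * X) := by
    calc C * ‖z‖ ^ p * Real.exp (C * X) * ‖z‖ = C * (‖z‖ ^ p * ‖z‖) * Real.exp (C * X) := by ring
      _ ≤ Real.exp (C * X) * Real.exp ((p + 1) * X) * Real.exp (C * X) := by gcongr
      _ = Real.exp ((2 * C + p + 1) * X) := by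
        rw [← Real.exp_add, ← Real.exp_add]
        congr 1
        ring
      _ ≤ _ := by
        apply Real.exp_le_exp.2
        gcongr
        linarith
  have h5 : ‖F 0‖ ≤ Real.exp ((K - 1) * X) := by
    have e1 := Real.add_one_le_exp ((K - 1) * X)
    nlinarith
  have h6 : 2 * Real.exp ((K - 1) * X) ≤ Real.exp (K * X) := by
    have e1 : K * X = X + (K - 1) * X := by ring
    rw [e1, Real.exp_add]
    have e2 := Real.add_one_le_exp X
    have e3 := Real.exp_pos ((K - 1) * X)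
    nlinarith
  have h7 : ‖F z‖ ≤ ‖F z - F 0‖ + ‖F 0‖ := by
    have := norm_add_le (F z - F 0) (F 0)
    rwa [sub_add_cancel] at this
  linarith

theorem Est.g_big (h : Est q p α P Q C c R) {K : ℝ} (hK : 4 * (|Real.log (C / c)| + q + C) ≤ K)
    {z : ℂ} (hR : R ≤ ‖z‖) (hz3 : 3 ≤ ‖z‖) (hu : K * ‖z‖ ^ (q - 1) * Real.log ‖z‖ ≤ uu q α z) :
    Real.exp (3 / 4 * uu q α z) ≤ ‖gg P Q z‖ := by
  have hc := h.hc
  have hC := h.hC
  have hr0 : 0 < ‖z‖ := by linarith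
  have h1 := h.g_lo hR
  have hl := one_le_log hz3
  have hr1 : 1 ≤ ‖z‖ ^ (q - 1) := one_le_pow₀ (by linarith)
  have h2 : C / c * ‖z‖ ^ q * Real.exp (C * ‖z‖ ^ (q - 1)) ≤ Real.exp (uu q α z / 4) := by
    rw [exp_form (by positivity) hr0]
    apply Real.exp_le_exp.2
    set L := Real.log ‖z‖ with hL
    set X := ‖z‖ ^ (q - 1) with hX
    have hXL : 1 ≤ X * L := by nlinarith
    have hXL2 : L ≤ X * L := by nlinarith
    have hXL3 : X ≤ X * L := by nlinarith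
    have habs : 0 ≤ |Real.log (C / c)| := abs_nonneg _
    have habs2 := le_abs_self (Real.log (C / c))
    have hq0 : (0 : ℝ) ≤ q := Nat.cast_nonneg q
    have e2 : |Real.log (C / c)| ≤ |Real.log (C / c)| * (X * L) :=
      le_mul_of_one_le_right habs hXL
    have e3 : q * L ≤ q * (X * L) := mul_le_mul_of_nonneg_left hXL2 hq0
    have e4 : C * X ≤ C * (X * L) := mul_le_mul_of_nonneg_left hXL3 (by linarith)
    have e5 : 4 * (|Real.log (C / c)| + q + C) * (X * L) ≤ K * (X * L) :=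
      mul_le_mul_of_nonneg_right hK (by linarith)
    have e6 : K * (X * L) ≤ uu q α z := by rw [← mul_assoc]; exact hu
    nlinarith
  have h3 : Real.exp (uu q α z - C * ‖z‖ ^ (q - 1)) * Real.exp (C * ‖z‖ ^ (q - 1)) =
      Real.exp (uu q α z / 4) * Real.exp (3 / 4 * uu q α z) := by
    rw [← Real.exp_add, ← Real.exp_add]; congr 1; ring
  have h4 : Real.exp (3 / 4 * uu q α z) * ‖z‖ ^ q ≤ ‖gg P Q z‖ * ‖z‖ ^ q := by
    refine le_trans ?_ h1
    have e1 := Real.exp_pos (C * ‖z‖ ^ (q - 1))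
    refine le_of_mul_le_mul_right ?_ e1
    calc Real.exp (3 / 4 * uu q α z) * ‖z‖ ^ q * Real.exp (C * ‖z‖ ^ (q - 1))
        = c / C * Real.exp (3 / 4 * uu q α z) *
            (C / c * ‖z‖ ^ q * Real.exp (C * ‖z‖ ^ (q - 1))) := by
          field_simp
      _ ≤ c / C * Real.exp (3 / 4 * uu q α z) * Real.exp (uu q α z / 4) := by gcongr
      _ = c / C * (Real.exp (uu q α z / 4) * Real.exp (3 / 4 * uu q α z)) := by ring
      _ = c / C * Real.exp (uu q α z - C * ‖z‖ ^ (q - 1)) *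
            Real.exp (C * ‖z‖ ^ (q - 1)) := by
          rw [← h3]; ring
  exact le_of_mul_le_mul_right h4 (by positivity)

theorem Est.in_big (h : Est q p α P Q C c R)
    (hF : ∀ z, HasDerivAt F (P.eval z * Complex.exp (Q.eval z)) z) {a : ℂ → ℂ} {R2 : ℝ}
    (hl : Lim q α F a R2) :
    ∃ K1 : ℝ, ∀ K, K1 ≤ K → ∀ z, K ≤ ‖z‖ → K * ‖z‖ ^ (q - 1) * Real.log ‖z‖ ≤ uu q α z →
      Real.exp (uu q α z / 2) ≤ ‖F z‖ := by
  obtain ⟨R7, hR7, hR73, hs⟩ := h.star2 hF hl (δ := 1 / 2) (by norm_num)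
  obtain ⟨M, hM0, hM⟩ := fin_bound ((DD_finite h.hq h.hα).image a)
  refine ⟨max R7 (max (4 * (|Real.log (C / c)| + q + C)) (4 * (2 * M + 3))), fun K hK z hz hu => ?_⟩
  have k1 : R7 ≤ K := (le_max_left _ _).trans hK
  have k2 : 4 * (|Real.log (C / c)| + q + C) ≤ K :=
    ((le_max_left _ _).trans (le_max_right _ _)).trans hK
  have k3 : 4 * (2 * M + 3) ≤ K := ((le_max_right _ _).trans (le_max_right _ _)).trans hK
  obtain ⟨ω, hω, h1⟩ := hs z (k1.trans hz)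
  have hz3 : 3 ≤ ‖z‖ := by linarith
  have h2 := h.g_big k2 (z := z) (by linarith) hz3 hu
  have h3 := hM (a ω) (mem_image_of_mem a hω)
  have h4 : ‖gg P Q z‖ ≤ ‖F z‖ + (‖F z - gg P Q z - a ω‖ + ‖a ω‖) := by
    have e1 := norm_sub_le (F z) ((F z - gg P Q z - a ω) + a ω)
    have e2 := norm_add_le (F z - gg P Q z - a ω) (a ω)
    have e3 : F z - ((F z - gg P Q z - a ω) + a ω) = gg P Q z := by ring
    rw [e3] at e1
    linarith
  have h5 : K ≤ uu q α z := by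
    refine le_trans ?_ hu
    have hl := one_le_log hz3
    have hr1 : 1 ≤ ‖z‖ ^ (q - 1) := one_le_pow₀ (by linarith)
    have hK0 : 0 < K := by linarith
    have e1 : K ≤ K * ‖z‖ ^ (q - 1) := le_mul_of_one_le_right hK0.le hr1
    exact e1.trans (le_mul_of_one_le_right (by linarith) hl)
  have h6 : Real.exp (3 / 4 * uu q α z) =
      Real.exp (uu q α z / 4) * Real.exp (uu q α z / 2) := by
    rw [← Real.exp_add]; congr 1; ring
  have h7 : 2 * M + 3 ≤ Real.exp (uu q α z / 4) := by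
    have := Real.add_one_le_exp (uu q α z / 4)
    linarith
  have h8 : 1 ≤ Real.exp (uu q α z / 2) := Real.one_le_exp (by linarith)
  have h9 : (2 * M + 3) * Real.exp (uu q α z / 2) ≤ ‖gg P Q z‖ := by
    refine le_trans ?_ h2
    rw [h6]
    gcongr
  nlinarith

theorem Est.F_eq (h : Est q p α P Q C c R)
    (hF : ∀ z, HasDerivAt F (P.eval z * Complex.exp (Q.eval z)) z) {z : ℂ} (hR : R ≤ ‖z‖) :
    deriv F z = Q.derivative.eval z * gg P Q z := by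
  rw [(hF z).deriv]
  have := h.q_ne hR
  unfold gg kk
  field_simp

theorem Est.in_far (h : Est q p α P Q C c R)
    (hF : ∀ z, HasDerivAt F (P.eval z * Complex.exp (Q.eval z)) z) {a : ℂ → ℂ} {R2 : ℝ}
    (hl : Lim q α F a R2) :
    ∃ K1 : ℝ, ∀ K, K1 ≤ K → ∀ z, K ≤ ‖z‖ → K ≤ ‖F z‖ →
      ‖deriv F z - q * α * z ^ (q - 1) * F z‖ ≤ 1 / 1000 * ‖q * α * z ^ (q - 1) * F z‖ := by
  have hC := h.hC
  have hα : 0 < ‖α‖ := norm_pos_iff.2 h.hα
  have hq := h.hq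
  have hqR : (1 : ℝ) ≤ q := by exact_mod_cast hq
  obtain ⟨δ, hδ⟩ : ∃ δ : ℝ, δ = min (1 / 2) (‖α‖ / (4000 * C)) := ⟨_, rfl⟩
  have hδ0 : 0 < δ := by
    rw [hδ]
    exact lt_min (by norm_num) (by positivity)
  have hδ1 : δ ≤ 1 / 2 := by rw [hδ]; exact min_le_left _ _
  have hδ2 : C * δ ≤ ‖α‖ / 4000 := by
    have : δ ≤ ‖α‖ / (4000 * C) := by rw [hδ]; exact min_le_right _ _
    rw [le_div_iff₀ (by positivity)] at this
    linarith
  obtain ⟨R7, hR7, hR73, hs⟩ := h.star2 hF hl hδ0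
  obtain ⟨M, hM0, hM⟩ := fin_bound ((DD_finite h.hq h.hα).image a)
  refine ⟨max R7 (max (4000 * C / ‖α‖) ((1 + 2 * M) / δ)), fun K hK z hz hFz => ?_⟩
  have k1 : R7 ≤ K := (le_max_left _ _).trans hK
  have k2 : 4000 * C / ‖α‖ ≤ K := ((le_max_left _ _).trans (le_max_right _ _)).trans hK
  have k3 : (1 + 2 * M) / δ ≤ K := ((le_max_right _ _).trans (le_max_right _ _)).trans hK
  obtain ⟨ω, hω, h1⟩ := hs z (k1.trans hz)
  have hz3 : 3 ≤ ‖z‖ := by linarith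
  have hz0 : 0 < ‖z‖ := by linarith
  have hR : R ≤ ‖z‖ := by linarith
  have h3 := hM (a ω) (mem_image_of_mem a hω)
  set H := F z - gg P Q z with hH
  have h4 : ‖H‖ ≤ δ * ‖gg P Q z‖ + δ + M := by
    have e2 := norm_add_le (H - a ω) (a ω)
    rw [sub_add_cancel] at e2
    linarith
  have h5 : ‖gg P Q z‖ ≤ ‖F z‖ + ‖H‖ := by
    have e1 := norm_sub_le (F z) H
    have e3 : F z - H = gg P Q z := by rw [hH]; ring
    rwa [e3] at e1
  have h6 : ‖H‖ ≤ 3 * δ * ‖F z‖ := by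
    rw [div_le_iff₀ hδ0] at k3
    have e1 : 1 + 2 * M ≤ δ * ‖F z‖ := by nlinarith
    have e2 : δ * ‖gg P Q z‖ ≤ δ * ‖F z‖ + δ * ‖H‖ := by nlinarith
    have e3 : δ * ‖H‖ ≤ 1 / 2 * ‖H‖ := by gcongr
    linarith
  have h7 : deriv F z - q * α * z ^ (q - 1) * F z =
      (Q.derivative.eval z - q * α * z ^ (q - 1)) * F z - Q.derivative.eval z * H := by
    rw [h.F_eq hF hR, hH]
    ring
  have h8 : ‖Q.derivative.eval z - q * α * z ^ (q - 1)‖ ≤ ‖α‖ / 4000 * ‖z‖ ^ (q - 1) := by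
    have e1 := h.q_as z (by linarith)
    rw [div_le_iff₀ hα] at k2
    have e2 : 0 < ‖z‖ ^ (q - 1) := by positivity
    have e3 : ‖Q.derivative.eval z - q * α * z ^ (q - 1)‖ * ‖z‖ ≤
        (‖α‖ / 4000 * ‖z‖ ^ (q - 1)) * ‖z‖ := by
      refine e1.trans ?_
      have e4 : C ≤ ‖α‖ / 4000 * ‖z‖ := by nlinarith
      calc C * ‖z‖ ^ (q - 1) ≤ (‖α‖ / 4000 * ‖z‖) * ‖z‖ ^ (q - 1) := by gcongr
        _ = _ := by ring
    exact le_of_mul_le_mul_right e3 hz0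
  have h9 := h.q_up z hR
  have h10 : ‖(q : ℂ) * α * z ^ (q - 1) * F z‖ = q * ‖α‖ * ‖z‖ ^ (q - 1) * ‖F z‖ := by
    rw [norm_mul, norm_mul, norm_mul, norm_pow, Complex.norm_natCast]
  rw [h7, h10]
  calc _ ≤ ‖(Q.derivative.eval z - q * α * z ^ (q - 1)) * F z‖ +
        ‖Q.derivative.eval z * H‖ := norm_sub_le _ _
    _ = ‖Q.derivative.eval z - q * α * z ^ (q - 1)‖ * ‖F z‖ + ‖Q.derivative.eval z‖ * ‖H‖ := by
        rw [norm_mul, norm_mul]
    _ ≤ ‖α‖ / 4000 * ‖z‖ ^ (q - 1) * ‖F z‖ + C * ‖z‖ ^ (q - 1) * (3 * δ * ‖F z‖) := by gcongr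
    _ = (‖α‖ / 4000 + 3 * (C * δ)) * (‖z‖ ^ (q - 1) * ‖F z‖) := by ring
    _ ≤ (‖α‖ / 4000 + 3 * (‖α‖ / 4000)) * (‖z‖ ^ (q - 1) * ‖F z‖) := by gcongr
    _ = 1 / 1000 * (1 * ‖α‖ * ‖z‖ ^ (q - 1) * ‖F z‖) := by ring
    _ ≤ _ := by gcongr

theorem Est.in_small (h : Est q p α P Q C c R)
    (hF : ∀ z, HasDerivAt F (P.eval z * Complex.exp (Q.eval z)) z) {a : ℂ → ℂ} {R2 : ℝ}
    (hl : Lim q α F a R2) :
    ∃ K1 : ℝ, ∀ K, K1 ≤ K → ∀ z, K ≤ ‖z‖ →
      uu q α z ≤ -(K * ‖z‖ ^ (q - 1) * Real.log ‖z‖) →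
      (∃ b ∈ a '' DD q α, ‖F z - b‖ ≤ Real.exp (uu q α z / 2)) ∧
        ‖deriv F z‖ ≤ Real.exp (uu q α z / 2) := by
  refine ⟨max (K0 p C c) (max R R2), fun K hK z hz hu => ?_⟩
  have k1 : K0 p C c ≤ K := (le_max_left _ _).trans hK
  have k2 : R ≤ K := ((le_max_left _ _).trans (le_max_right _ _)).trans hK
  have k3 : R2 ≤ K := ((le_max_right _ _).trans (le_max_right _ _)).trans hK
  have hz3 : 3 ≤ ‖z‖ := hl.1.trans (k3.trans hz)
  have hln := one_le_log hz3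
  have hX : 0 < ‖z‖ ^ (q - 1) := by positivity
  have hu2 : uu q α z ≤ -(K0 p C c * ‖z‖ ^ (q - 1) * Real.log ‖z‖) := by
    refine hu.trans (neg_le_neg ?_)
    gcongr
  obtain ⟨ω, hω, h1⟩ := h.valley' hF hl (k2.trans hz) (k3.trans hz) hu2
  refine ⟨⟨a ω, mem_image_of_mem a hω, h1⟩, ?_⟩
  obtain ⟨h2, -, -⟩ := h.valley_der (k2.trans hz) hz3 hu2
  rw [(hF z).deriv]
  refine h2.trans (Real.exp_le_exp.2 ?_)
  have h8 := K0_pos p (c := c) h.hC
  have : 0 < K0 p C c * ‖z‖ ^ (q - 1) * Real.log ‖z‖ := by positivity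
  linarith

theorem Est.in_deep (h : Est q p α P Q C c R)
    (hF : ∀ z, HasDerivAt F (P.eval z * Complex.exp (Q.eval z)) z) {a : ℂ → ℂ} {R2 : ℝ}
    (hl : Lim q α F a R2) :
    ∃ K1 : ℝ, ∀ K, K1 ≤ K → ∀ b ∈ a '' DD q α, ∃ θ : ℝ, ∀ (z : ℂ) (y : ℝ), |y| ≤ 1 / K →
      K ≤ ‖z‖ → z = ‖z‖ * Complex.exp ((θ + y : ℝ) * Complex.I) →
      uu q α z ≤ -(‖z‖ ^ q / K) ∧ ‖F z - b‖ ≤ Real.exp (uu q α z / 2) := by
  have hα : 0 < ‖α‖ := norm_pos_iff.2 h.hα
  have hq := h.hq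
  have hqR : (1 : ℝ) ≤ q := by exact_mod_cast hq
  obtain ⟨R3, hR3, hlow⟩ := low_order q hq (K0 p C c) (c := ‖α‖ / 2) (by positivity)
  refine ⟨max (max R R2) (max R3 (max q (2 / ‖α‖))), fun K hK b hb => ?_⟩
  have k1 : R ≤ K := ((le_max_left _ _).trans (le_max_left _ _)).trans hK
  have k2 : R2 ≤ K := ((le_max_right _ _).trans (le_max_left _ _)).trans hK
  have k3 : R3 ≤ K := ((le_max_left _ _).trans (le_max_right _ _)).trans hK
  have k4 : (q : ℝ) ≤ K := (((le_max_left _ _).trans (le_max_right _ _)).trans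
    (le_max_right _ _)).trans hK
  have k5 : 2 / ‖α‖ ≤ K := (((le_max_right _ _).trans (le_max_right _ _)).trans
    (le_max_right _ _)).trans hK
  obtain ⟨ω, hω, rfl⟩ := hb
  have hK0 : 0 < K := by linarith
  refine ⟨Complex.arg ω, fun z y hy hz hzy => ?_⟩
  have hz3 : 3 ≤ ‖z‖ := hl.1.trans (k2.trans hz)
  have hz0 : 0 < ‖z‖ := by linarith
  have hωe : Complex.exp (Complex.arg ω * Complex.I) = ω := by
    have := Complex.norm_mul_exp_arg_mul_I ω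
    rwa [hω.1, Complex.ofReal_one, one_mul] at this
  have hzω : z = ‖z‖ * Complex.exp (y * Complex.I) * ω := by
    have e1 : ((Complex.arg ω + y : ℝ) : ℂ) * Complex.I =
        y * Complex.I + Complex.arg ω * Complex.I := by push_cast; ring
    rw [e1, Complex.exp_add, hωe, ← mul_assoc] at hzy
    exact hzy
  have hqy : |q * y| ≤ 1 := by
    rw [abs_mul, abs_of_nonneg (by linarith : (0 : ℝ) ≤ q)]
    calc (q : ℝ) * |y| ≤ K * (1 / K) := by gcongr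
      _ = 1 := by field_simp
  have hcos : 1 / 2 ≤ Real.cos (q * y) := by
    have e1 := Real.one_sub_sq_div_two_le_cos (x := q * y)
    have e2 : (q * y) ^ 2 ≤ 1 := by
      rw [← sq_abs]
      nlinarith [abs_nonneg (q * y)]
    linarith
  have huz : uu q α z = -(‖α‖ * ‖z‖ ^ q * Real.cos (q * y)) := by
    conv_lhs => rw [hzω]
    exact uu_dir hω.2
  have hu1 : uu q α z ≤ -(‖α‖ / 2 * ‖z‖ ^ q) := by
    rw [huz]
    have : 0 < ‖α‖ * ‖z‖ ^ q := by positivity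
    nlinarith
  refine ⟨hu1.trans (neg_le_neg ?_), ?_⟩
  · rw [div_le_iff₀ hK0]
    rw [div_le_iff₀ hα] at k5
    have e1 : 0 < ‖z‖ ^ q := by positivity
    nlinarith
  · have hpi := Real.pi_gt_three
    exact h.valley hF hl hω hzω (k1.trans hz) (k2.trans hz) (hqy.trans (by linarith))
      (h.half hF hl hlow (k1.trans hz) (k2.trans hz) (k3.trans hz) hu1).1

theorem Est.low (h : Est q p α P Q C c R)
    (hF : ∀ z, HasDerivAt F (P.eval z * Complex.exp (Q.eval z)) z) {a : ℂ → ℂ} {R2 : ℝ}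
    (hl : Lim q α F a R2) {S : Set ℂ} (hS : a '' DD q α ⊆ S)
    (hS2 : ∀ z, deriv F z = 0 → F z ∈ S) {ε : ℝ} (hε : 0 < ε) :
    ∃ κ : ℝ, 0 < κ ∧ ∀ z, (∀ s ∈ S, ε ≤ ‖F z - s‖) → κ ≤ ‖deriv F z‖ := by
  have hc := h.hc
  obtain ⟨δ, hδ⟩ : ∃ δ : ℝ, δ = min (1 / 2) (ε / 4) := ⟨_, rfl⟩
  have hδ0 : 0 < δ := by
    rw [hδ]
    exact lt_min (by norm_num) (by positivity)
  have hδ1 : δ ≤ 1 / 2 := by rw [hδ]; exact min_le_left _ _
  have hδ2 : δ ≤ ε / 4 := by rw [hδ]; exact min_le_right _ _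
  obtain ⟨R7, hR7, hR73, hs⟩ := h.star2 hF hl hδ0
  have hdc : Continuous (deriv F) := by
    have e1 : deriv F = fun z => P.eval z * Complex.exp (Q.eval z) := funext fun z => (hF z).deriv
    rw [e1]
    exact P.continuous.mul Q.continuous.cexp
  have hFc : Continuous F := continuous_iff_continuousAt.2 fun z => (hF z).continuousAt
  -- the compact part
  set T : Set ℂ := closedBall 0 R7 ∩ {z | ∀ s ∈ S, ε ≤ ‖F z - s‖} with hT
  have hTc : IsCompact T := by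
    refine (isCompact_closedBall 0 R7).inter_right ?_
    have e1 : {z | ∀ s ∈ S, ε ≤ ‖F z - s‖} = ⋂ s ∈ S, {z | ε ≤ ‖F z - s‖} := by
      ext z; simp
    rw [e1]
    exact isClosed_biInter fun s _ =>
      isClosed_le continuous_const (hFc.sub continuous_const).norm
  obtain ⟨κ1, hκ1, hT1⟩ : ∃ κ : ℝ, 0 < κ ∧ ∀ z ∈ T, κ ≤ ‖deriv F z‖ := by
    rcases T.eq_empty_or_nonempty with hTe | hTn
    · exact ⟨1, one_pos, fun z hz => by rw [hTe] at hz; exact absurd hz (notMem_empty z)⟩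
    · obtain ⟨z0, hz0, hmin⟩ := hTc.exists_isMinOn hTn hdc.norm.continuousOn
      refine ⟨‖deriv F z0‖, ?_, fun z hz => hmin hz⟩
      rw [norm_pos_iff]
      intro h0
      have := hz0.2 (F z0) (hS2 z0 h0)
      rw [sub_self, norm_zero] at this
      linarith
  refine ⟨min κ1 (c * (ε / 2)), lt_min hκ1 (by positivity), fun z hz => ?_⟩
  rcases le_total ‖z‖ R7 with hz1 | hz1
  · exact (min_le_left _ _).trans (hT1 z ⟨by simpa using hz1, hz⟩)
  · refine (min_le_right _ _).trans ?_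
    obtain ⟨ω, hω, h1⟩ := hs z hz1
    have h2 := hz (a ω) (hS (mem_image_of_mem a hω))
    have h3 : ε / 2 ≤ ‖gg P Q z‖ := by
      have e1 : F z - a ω = gg P Q z + (F z - gg P Q z - a ω) := by ring
      have e2 := norm_add_le (gg P Q z) (F z - gg P Q z - a ω)
      rw [← e1] at e2
      have e3 : δ * ‖gg P Q z‖ ≤ 1 / 2 * ‖gg P Q z‖ := by gcongr
      linarith
    have hR : R ≤ ‖z‖ := hR7.trans hz1
    rw [h.F_eq hF hR, norm_mul]
    have h4 : c ≤ ‖Q.derivative.eval z‖ := by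
      refine le_trans ?_ (h.q_lo z hR)
      exact le_mul_of_one_le_right hc.le (one_le_pow₀ (by linarith))
    gcongr

theorem exists_sys (P Q : Polynomial ℂ) (hP : P ≠ 0) (hQ : 1 ≤ Q.natDegree) (F : ℂ → ℂ)
    (hF : ∀ z, HasDerivAt F (P.eval z * Complex.exp (Q.eval z)) z) :
    ∃ (A S : Set ℂ) (K : ℝ), Sys Q.natDegree Q.leadingCoeff F A S K ∧
      (∀ z, deriv F z = 0 → F z ∈ S) ∧
      (∀ s ∈ S, s ∈ A ∨ ∃ z, deriv F z = 0 ∧ F z = s) ∧
      (∀ ε : ℝ, 0 < ε → ∃ κ : ℝ, 0 < κ ∧ ∀ z, (∀ s ∈ S, ε ≤ ‖F z - s‖) → κ ≤ ‖deriv F z‖) := by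
  obtain ⟨C, c, R, h⟩ := exists_est P Q hP hQ
  obtain ⟨a, R2, hl⟩ := exists_lim h hF
  have hder : ∀ z, deriv F z = 0 ↔ P.eval z = 0 := fun z => by
    rw [(hF z).deriv, mul_eq_zero, or_iff_left (Complex.exp_ne_zero _)]
  have hAfin : (a '' DD Q.natDegree Q.leadingCoeff).Finite := (DD_finite h.hq h.hα).image a
  have hZfin : (F '' {z | P.eval z = 0}).Finite :=
    (Polynomial.finite_setOfPred_isRoot hP).image F
  have hSfin : (a '' DD Q.natDegree Q.leadingCoeff ∪ F '' {z | P.eval z = 0}).Finite :=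
    hAfin.union hZfin
  have hcrit : ∀ z, deriv F z = 0 →
      F z ∈ a '' DD Q.natDegree Q.leadingCoeff ∪ F '' {z | P.eval z = 0} := fun z hz =>
    Or.inr ⟨z, (hder z).1 hz, rfl⟩
  obtain ⟨K1, h1⟩ := h.in_up hF
  obtain ⟨K2, h2⟩ := h.in_big hF hl
  obtain ⟨K3, h3⟩ := h.in_far hF hl
  obtain ⟨K4, h4⟩ := h.in_small hF hl
  obtain ⟨K5, h5⟩ := h.in_deep hF hl
  obtain ⟨K6, hK60, h6⟩ := fin_bound hSfin
  set K := max (max (max K1 K2) (max K3 K4)) (max (max K5 K6) 1) with hK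
  have k1 : K1 ≤ K := ((le_max_left _ _).trans (le_max_left _ _)).trans (le_max_left _ _)
  have k2 : K2 ≤ K := ((le_max_right _ _).trans (le_max_left _ _)).trans (le_max_left _ _)
  have k3 : K3 ≤ K := ((le_max_left _ _).trans (le_max_right _ _)).trans (le_max_left _ _)
  have k4 : K4 ≤ K := ((le_max_right _ _).trans (le_max_right _ _)).trans (le_max_left _ _)
  have k5 : K5 ≤ K := ((le_max_left _ _).trans (le_max_left _ _)).trans (le_max_right _ _)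
  have k6 : K6 ≤ K := ((le_max_right _ _).trans (le_max_left _ _)).trans (le_max_right _ _)
  have k7 : 1 ≤ K := (le_max_right _ _).trans (le_max_right _ _)
  refine ⟨a '' DD Q.natDegree Q.leadingCoeff,
    a '' DD Q.natDegree Q.leadingCoeff ∪ F '' {z | P.eval z = 0}, K,
    { q1 := hQ
      α0 := h.hα
      K1 := k7
      diff := fun z => (hF z).differentiableAt
      up := h1 K k1
      big := h2 K k2
      far := h3 K k3
      small := h4 K k4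
      deep := h5 K k5
      Ane := (DD_nonempty h.hq h.hα).image a
      Afin := hAfin
      Sfin := hSfin
      AS := subset_union_left
      bd := fun s hs => (h6 s hs).trans k6 }, hcrit, ?_, fun ε hε =>
      h.low hF hl subset_union_left hcrit hε⟩
  rintro s (hs | ⟨z, hz, rfl⟩)
  · exact Or.inl hs
  · exact Or.inr ⟨z, (hder z).2 hz, rfl⟩

end Pool.Agent.Helper18.EF

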