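import Pool.Agent.Helper34.EF.Base

/-! # The functions with `F' = P e^Q`: asymptotics and the spiral estimate -/

set_option autoImplicit false

open Filter Topology Metric Set MeasureTheory Pool.Agent.Helper34.EF

namespace Pool.Agent.Helper18.EF

open Polynomial

/-! ### polynomials -/

theorem pA (T : ℂ[X]) : ∃ C : ℝ, 0 ≤ C ∧ ∀ z : ℂ, 1 ≤ ‖z‖ →
    ‖T.eval z - T.leadingCoeff * z ^ T.natDegree‖ * ‖z‖ ≤ C * ‖z‖ ^ T.natDegree := by
  refine ⟨∑ i ∈ Finset.range T.natDegree, ‖T.coeff i‖, by positivity, fun z hz => ?_⟩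
  have h1 : T.eval z - T.leadingCoeff * z ^ T.natDegree =
      ∑ i ∈ Finset.range T.natDegree, T.coeff i * z ^ i := by
    rw [Polynomial.eval_eq_sum_range, Finset.sum_range_succ, Polynomial.coeff_natDegree]
    ring
  rw [h1, Finset.sum_mul]
  calc ‖∑ i ∈ Finset.range T.natDegree, T.coeff i * z ^ i‖ * ‖z‖
      ≤ (∑ i ∈ Finset.range T.natDegree, ‖T.coeff i * z ^ i‖) * ‖z‖ := by
        gcongr
        exact norm_sum_le _ _
    _ = ∑ i ∈ Finset.range T.natDegree, ‖T.coeff i‖ * ‖z‖ ^ (i + 1) := by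
        rw [Finset.sum_mul]
        refine Finset.sum_congr rfl fun i _ => ?_
        rw [norm_mul, norm_pow, pow_succ]
        ring
    _ ≤ ∑ i ∈ Finset.range T.natDegree, ‖T.coeff i‖ * ‖z‖ ^ T.natDegree := by
        refine Finset.sum_le_sum fun i hi => ?_
        rw [Finset.mem_range] at hi
        have hi' : i + 1 ≤ T.natDegree := hi
        gcongr

theorem pB (T : ℂ[X]) : ∃ C : ℝ, 0 ≤ C ∧ ∀ (z : ℂ) (r : ℝ), 1 ≤ r → ‖z‖ ≤ r →
    ‖T.eval z‖ ≤ C * r ^ T.natDegree := by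
  refine ⟨∑ i ∈ Finset.range (T.natDegree + 1), ‖T.coeff i‖, by positivity, fun z r hr hz => ?_⟩
  rw [Polynomial.eval_eq_sum_range, Finset.sum_mul]
  refine (norm_sum_le _ _).trans (Finset.sum_le_sum fun i hi => ?_)
  rw [Finset.mem_range] at hi
  rw [norm_mul, norm_pow]
  calc ‖T.coeff i‖ * ‖z‖ ^ i ≤ ‖T.coeff i‖ * r ^ i := by gcongr
    _ ≤ ‖T.coeff i‖ * r ^ T.natDegree := by
        have hi' : i ≤ T.natDegree := by omega
        gcongr

theorem pC (T : ℂ[X]) (hT : T ≠ 0) : ∃ c R : ℝ, 0 < c ∧ 1 ≤ R ∧ ∀ z : ℂ, R ≤ ‖z‖ →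
    c * ‖z‖ ^ T.natDegree ≤ ‖T.eval z‖ := by
  obtain ⟨C, hC, h⟩ := pA T
  have hτ : 0 < ‖T.leadingCoeff‖ := norm_pos_iff.2 (Polynomial.leadingCoeff_ne_zero.2 hT)
  set τ := ‖T.leadingCoeff‖ with hτd
  refine ⟨τ / 2, max 1 (2 * C / τ), by positivity, le_max_left _ _, fun z hz => ?_⟩
  have hz1 : 1 ≤ ‖z‖ := (le_max_left _ _).trans hz
  have hz2 : 2 * C / τ ≤ ‖z‖ := (le_max_right _ _).trans hz
  have hz0 : 0 < ‖z‖ := by linarith
  have h1 := h z hz1
  have h2 : ‖T.leadingCoeff * z ^ T.natDegree‖ - ‖T.eval z - T.leadingCoeff * z ^ T.natDegree‖ ≤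
      ‖T.eval z‖ := by
    have := norm_sub_norm_le (T.leadingCoeff * z ^ T.natDegree)
      (T.leadingCoeff * z ^ T.natDegree - T.eval z)
    rw [sub_sub_cancel, norm_sub_rev (T.leadingCoeff * z ^ T.natDegree)] at this
    exact this
  have h3 : ‖T.leadingCoeff * z ^ T.natDegree‖ = τ * ‖z‖ ^ T.natDegree := by
    rw [norm_mul, norm_pow]
  have h4 : ‖T.eval z - T.leadingCoeff * z ^ T.natDegree‖ ≤ τ / 2 * ‖z‖ ^ T.natDegree := by
    rw [div_le_iff₀ hτ] at hz2
    have h5 : ‖T.eval z - T.leadingCoeff * z ^ T.natDegree‖ * ‖z‖ ≤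
        (τ / 2 * ‖z‖ ^ T.natDegree) * ‖z‖ := by
      have h6 : 0 ≤ ‖z‖ ^ T.natDegree := by positivity
      nlinarith
    exact le_of_mul_le_mul_right h5 hz0
  rw [h3] at h2
  linarith

theorem pD (T : ℂ[X]) (hT : T ≠ 0) : ∃ C R : ℝ, 0 ≤ C ∧ 1 ≤ R ∧ ∀ z : ℂ, R ≤ ‖z‖ →
    ‖T.derivative.eval z‖ * ‖z‖ ≤ C * ‖T.eval z‖ := by
  obtain ⟨c, R, hc, hR, h⟩ := pC T hT
  obtain ⟨C, hC, h'⟩ := pB T.derivative
  refine ⟨C / c, R, by positivity, hR, fun z hz => ?_⟩
  have hz1 : 1 ≤ ‖z‖ := hR.trans hz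
  have h1 := h z hz
  have h2 := h' z ‖z‖ hz1 le_rfl
  by_cases hn : T.natDegree = 0
  · have : T.derivative = 0 := by
      rw [Polynomial.eq_C_of_natDegree_eq_zero hn, Polynomial.derivative_C]
    rw [this]
    simp only [Polynomial.eval_zero, norm_zero, zero_mul]
    positivity
  · have h3 : T.derivative.natDegree + 1 ≤ T.natDegree := Polynomial.natDegree_derivative_lt hn
    calc ‖T.derivative.eval z‖ * ‖z‖ ≤ C * ‖z‖ ^ T.derivative.natDegree * ‖z‖ := by gcongr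
      _ = C * ‖z‖ ^ (T.derivative.natDegree + 1) := by rw [pow_succ]; ring
      _ ≤ C * ‖z‖ ^ T.natDegree := by gcongr
      _ = C / c * (c * ‖z‖ ^ T.natDegree) := by field_simp
      _ ≤ C / c * ‖T.eval z‖ := by gcongr

/-- the estimates for the polynomials -/
structure Est (q p : ℕ) (α : ℂ) (P Q : ℂ[X]) (C c R : ℝ) : Prop where
  hq : 1 ≤ q
  hα : α ≠ 0
  hc : 0 < c
  hC : 1 ≤ C
  hR : 1 ≤ R
  p_up : ∀ (z : ℂ) (r : ℝ), 1 ≤ r → ‖z‖ ≤ r → ‖P.eval z‖ ≤ C * r ^ p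
  p_lo : ∀ z : ℂ, R ≤ ‖z‖ → c * ‖z‖ ^ p ≤ ‖P.eval z‖
  p_d : ∀ z : ℂ, R ≤ ‖z‖ → ‖P.derivative.eval z‖ * ‖z‖ ≤ C * ‖P.eval z‖
  q_as : ∀ z : ℂ, 1 ≤ ‖z‖ →
    ‖Q.derivative.eval z - q * α * z ^ (q - 1)‖ * ‖z‖ ≤ C * ‖z‖ ^ (q - 1)
  q_lo : ∀ z : ℂ, R ≤ ‖z‖ → c * ‖z‖ ^ (q - 1) ≤ ‖Q.derivative.eval z‖
  q_up : ∀ z : ℂ, R ≤ ‖z‖ → ‖Q.derivative.eval z‖ ≤ C * ‖z‖ ^ (q - 1)
  q_d : ∀ z : ℂ, R ≤ ‖z‖ →
    ‖Q.derivative.derivative.eval z‖ * ‖z‖ ≤ C * ‖Q.derivative.eval z‖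
  q_re : ∀ z : ℂ, 1 ≤ ‖z‖ → |(Q.eval z).re - uu q α z| ≤ C * ‖z‖ ^ (q - 1)
  q_abs : ∀ (z : ℂ) (r : ℝ), 1 ≤ r → ‖z‖ ≤ r → ‖Q.eval z‖ ≤ C * r ^ q

theorem exists_est (P Q : ℂ[X]) (hP : P ≠ 0) (hQ : 1 ≤ Q.natDegree) :
    ∃ C c R : ℝ, Est Q.natDegree P.natDegree Q.leadingCoeff P Q C c R := by
  have hQ0 : Q ≠ 0 := by
    rintro rfl
    simp at hQ
  have hnd : Q.derivative.natDegree = Q.natDegree - 1 :=
    Polynomial.natDegree_derivative Q
  have hlc : Q.derivative.leadingCoeff = Q.natDegree * Q.leadingCoeff := by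
    rw [Polynomial.leadingCoeff, hnd, Polynomial.coeff_derivative, Polynomial.leadingCoeff]
    have : Q.natDegree - 1 + 1 = Q.natDegree := by omega
    rw [this]
    have h2 : ((Q.natDegree - 1 : ℕ) : ℂ) + 1 = Q.natDegree := by
      have h3 : (((Q.natDegree - 1) + 1 : ℕ) : ℂ) = Q.natDegree := by rw [this]
      push_cast at h3
      exact h3
    rw [h2, mul_comm]
  have hdQ : Q.derivative ≠ 0 := by
    intro h0
    have h1 : Q.derivative.leadingCoeff = 0 := by rw [h0]; simp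
    rw [hlc] at h1
    rcases mul_eq_zero.1 h1 with h | h
    · have : Q.natDegree = 0 := by exact_mod_cast h
      omega
    · exact hQ0 (Polynomial.leadingCoeff_eq_zero.1 h)
  obtain ⟨C1, hC1, h1⟩ := pB P
  obtain ⟨c2, R2, hc2, hR2, h2⟩ := pC P hP
  obtain ⟨C3, R3, hC3, hR3, h3⟩ := pD P hP
  obtain ⟨C4, hC4, h4⟩ := pA Q.derivative
  obtain ⟨c5, R5, hc5, hR5, h5⟩ := pC Q.derivative hdQ
  obtain ⟨C6, hC6, h6⟩ := pB Q.derivative
  obtain ⟨C7, R7, hC7, hR7, h7⟩ := pD Q.derivative hdQ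
  obtain ⟨C8, hC8, h8⟩ := pA Q
  obtain ⟨C9, hC9, h9⟩ := pB Q
  rw [hnd, hlc] at h4
  rw [hnd] at h5 h6
  set C := 1 + C1 + C3 + C4 + C6 + C7 + C8 + C9 with hC
  refine ⟨C, min c2 c5, max R2 (max R3 (max R5 R7)), hQ, Polynomial.leadingCoeff_ne_zero.2 hQ0,
    lt_min hc2 hc5, by linarith, hR2.trans (le_max_left _ _), ?_, ?_, ?_, ?_, ?_, ?_, ?_, ?_, ?_⟩
  · intro z r hr hz
    refine (h1 z r hr hz).trans ?_
    gcongr
    linarith
  · intro z hz
    refine le_trans ?_ (h2 z ((le_max_left _ _).trans hz))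
    gcongr
    exact min_le_left _ _
  · intro z hz
    refine (h3 z (((le_max_left _ _).trans (le_max_right _ _)).trans hz)).trans ?_
    gcongr
    linarith
  · intro z hz
    refine (h4 z hz).trans ?_
    gcongr
    linarith
  · intro z hz
    refine le_trans ?_ (h5 z (((le_max_left _ _).trans ((le_max_right _ _).trans
      (le_max_right _ _))).trans hz))
    gcongr
    exact min_le_right _ _
  · intro z hz
    refine (h6 z ‖z‖ (hR2.trans ((le_max_left _ _).trans hz)) le_rfl).trans ?_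
    gcongr
    linarith
  · intro z hz
    refine (h7 z (((le_max_right _ _).trans ((le_max_right _ _).trans
      (le_max_right _ _))).trans hz)).trans ?_
    gcongr
    linarith
  · intro z hz
    have h10 := h8 z hz
    have hz0 : 0 < ‖z‖ := by linarith
    have h11 : ‖z‖ ^ Q.natDegree = ‖z‖ ^ (Q.natDegree - 1) * ‖z‖ := by
      rw [← pow_succ]; congr 1; omega
    rw [h11, ← mul_assoc] at h10
    have h12 := le_of_mul_le_mul_right h10 hz0
    unfold uu
    rw [← Complex.sub_re]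
    refine (Complex.abs_re_le_norm _).trans (h12.trans ?_)
    gcongr
    linarith
  · intro z r hr hz
    refine (h9 z r hr hz).trans ?_
    gcongr
    linarith

/-! ### real asymptotics -/

theorem log_lin (a : ℝ) {c : ℝ} (hc : 0 < c) : ∃ R : ℝ, 3 ≤ R ∧ ∀ r, R ≤ r →
    a * (1 + Real.log r) ≤ c * r := by
  have h1 : Tendsto (fun r : ℝ => Real.log r / r) atTop (𝓝 0) :=
    Real.isLittleO_log_id_atTop.tendsto_div_nhds_zero
  have h2 : Tendsto (fun r : ℝ => r⁻¹) atTop (𝓝 0) := tendsto_inv_atTop_zero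
  have h3 : Tendsto (fun r : ℝ => a * (r⁻¹ + Real.log r / r)) atTop (𝓝 (a * (0 + 0))) :=
    (h2.add h1).const_mul a
  rw [add_zero, mul_zero] at h3
  obtain ⟨R, hR⟩ := eventually_atTop.1 (h3.eventually_lt_const hc)
  refine ⟨max R 3, le_max_right _ _, fun r hr => ?_⟩
  have h4 := hR r ((le_max_left _ _).trans hr)
  have h5 : 0 < r := by linarith [(le_max_right R 3).trans hr]
  have h6 : a * (1 + Real.log r) = a * (r⁻¹ + Real.log r / r) * r := by
    field_simp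
  rw [h6]
  exact mul_le_mul_of_nonneg_right h4.le h5.le

/-- everything of lower order is small compared with `r ^ q` -/
theorem low_order (q : ℕ) (hq : 1 ≤ q) (a : ℝ) {c : ℝ} (hc : 0 < c) : ∃ R : ℝ, 3 ≤ R ∧
    ∀ r, R ≤ r → a * (r ^ (q - 1) * (1 + Real.log r)) ≤ c * r ^ q := by
  obtain ⟨R, hR, h⟩ := log_lin a hc
  refine ⟨R, hR, fun r hr => ?_⟩
  have h1 := h r hr
  have h2 : r ^ q = r ^ (q - 1) * r := by
    rw [← pow_succ]; congr 1; omega
  have h3 : 0 < r := by linarith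
  have h4 : 0 < r ^ (q - 1) := by positivity
  rw [h2]
  nlinarith

theorem exp_form {C r : ℝ} (hC : 0 < C) (hr : 0 < r) (p : ℕ) (x : ℝ) :
    C * r ^ p * Real.exp x = Real.exp (Real.log C + p * Real.log r + x) := by
  rw [Real.exp_add, Real.exp_add, Real.exp_log hC, ← Real.log_pow, Real.exp_log (by positivity)]

theorem one_le_log {r : ℝ} (hr : 3 ≤ r) : 1 ≤ Real.log r := by
  rw [Real.le_log_iff_exp_le (by linarith)]
  have := Real.exp_one_lt_d9
  linarith

/-! ### the comparison function -/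

variable {q p : ℕ} {α : ℂ} {P Q : ℂ[X]} {C c R : ℝ} {F : ℂ → ℂ}

/-- `P / Q'` -/
noncomputable def kk (P Q : ℂ[X]) (z : ℂ) : ℂ := P.eval z / Q.derivative.eval z

/-- `(P / Q') e^Q` -/
noncomputable def gg (P Q : ℂ[X]) (z : ℂ) : ℂ := kk P Q z * Complex.exp (Q.eval z)

theorem Est.q_ne (h : Est q p α P Q C c R) {z : ℂ} (hz : R ≤ ‖z‖) : Q.derivative.eval z ≠ 0 := by
  have h1 := h.q_lo z hz
  have h2 : 0 < c * ‖z‖ ^ (q - 1) := by
    have := h.hc
    have h3 : 0 < ‖z‖ := lt_of_lt_of_le (by linarith [h.hR]) hz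
    positivity
  exact norm_pos_iff.1 (h2.trans_le h1)

theorem Est.p_ne (h : Est q p α P Q C c R) {z : ℂ} (hz : R ≤ ‖z‖) : P.eval z ≠ 0 := by
  have h1 := h.p_lo z hz
  have h2 : 0 < c * ‖z‖ ^ p := by
    have := h.hc
    have h3 : 0 < ‖z‖ := lt_of_lt_of_le (by linarith [h.hR]) hz
    positivity
  exact norm_pos_iff.1 (h2.trans_le h1)

/-- derivative of `F - g` -/
theorem Est.hasDeriv (h : Est q p α P Q C c R)
    (hF : ∀ z, HasDerivAt F (P.eval z * Complex.exp (Q.eval z)) z) {z : ℂ} (hz : R ≤ ‖z‖) :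
    ∃ D : ℂ, HasDerivAt (fun w => F w - gg P Q w) D z ∧ ‖D‖ * ‖z‖ ≤ 2 * C * ‖gg P Q z‖ := by
  have hq := h.q_ne hz
  have h1 : HasDerivAt (fun w => P.eval w) (P.derivative.eval z) z := P.hasDerivAt z
  have h2 : HasDerivAt (fun w => Q.derivative.eval w) (Q.derivative.derivative.eval z) z :=
    Q.derivative.hasDerivAt z
  have h3 : HasDerivAt (fun w => Complex.exp (Q.eval w))
      (Complex.exp (Q.eval z) * Q.derivative.eval z) z := (Q.hasDerivAt z).cexp
  have h4 := (h1.div h2 hq).mul h3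
  have h5 := (hF z).sub h4
  set k' : ℂ := (P.derivative.eval z * Q.derivative.eval z -
    P.eval z * Q.derivative.derivative.eval z) / Q.derivative.eval z ^ 2 with hk'
  refine ⟨-(k' * Complex.exp (Q.eval z)), ?_, ?_⟩
  · refine h5.congr_deriv ?_
    have e0 : P.eval z / Q.derivative.eval z * (Complex.exp (Q.eval z) * Q.derivative.eval z) =
        P.eval z * Complex.exp (Q.eval z) := by
      field_simp
    simp only [Pi.div_apply]
    rw [e0]
    ring
  · have h6 : ‖k'‖ * ‖z‖ ≤ 2 * C * ‖kk P Q z‖ := by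
      have e1 : k' = P.derivative.eval z / Q.derivative.eval z -
          P.eval z / Q.derivative.eval z *
            (Q.derivative.derivative.eval z / Q.derivative.eval z) := by
        rw [hk']
        field_simp
      have hq0 : 0 < ‖Q.derivative.eval z‖ := norm_pos_iff.2 hq
      have a1 := h.p_d z hz
      have a2 := h.q_d z hz
      have b1 : ‖P.derivative.eval z / Q.derivative.eval z‖ * ‖z‖ ≤ C * ‖kk P Q z‖ := by
        unfold kk
        rw [norm_div, norm_div, div_mul_eq_mul_div, div_le_iff₀ hq0]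
        calc _ ≤ C * ‖P.eval z‖ := a1
          _ = _ := by field_simp
      have b2 : ‖Q.derivative.derivative.eval z / Q.derivative.eval z‖ * ‖z‖ ≤ C := by
        rw [norm_div, div_mul_eq_mul_div, div_le_iff₀ hq0]
        exact a2
      rw [e1]
      calc ‖P.derivative.eval z / Q.derivative.eval z -
            P.eval z / Q.derivative.eval z *
              (Q.derivative.derivative.eval z / Q.derivative.eval z)‖ * ‖z‖
          ≤ (‖P.derivative.eval z / Q.derivative.eval z‖ +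
            ‖P.eval z / Q.derivative.eval z *
              (Q.derivative.derivative.eval z / Q.derivative.eval z)‖) * ‖z‖ := by
            gcongr
            exact norm_sub_le _ _
        _ = ‖P.derivative.eval z / Q.derivative.eval z‖ * ‖z‖ + ‖kk P Q z‖ *
              (‖Q.derivative.derivative.eval z / Q.derivative.eval z‖ * ‖z‖) := by
            rw [norm_mul]
            unfold kk
            ring
        _ ≤ C * ‖kk P Q z‖ + ‖kk P Q z‖ * C := by gcongr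
        _ = _ := by ring
    rw [norm_neg, norm_mul]
    unfold gg
    rw [norm_mul]
    nlinarith [norm_nonneg (Complex.exp (Q.eval z))]

/-- upper bound for `g` -/
theorem Est.g_up (h : Est q p α P Q C c R) {z : ℂ} (hz : R ≤ ‖z‖) :
    ‖gg P Q z‖ ≤ C / c * ‖z‖ ^ p * Real.exp (uu q α z + C * ‖z‖ ^ (q - 1)) := by
  have hR := h.hR
  have hc := h.hc
  have hC := h.hC
  have hz1 : 1 ≤ ‖z‖ := hR.trans hz
  have h1 := h.p_up z ‖z‖ hz1 le_rfl
  have h2 := h.q_lo z hz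
  have h3 : c ≤ ‖Q.derivative.eval z‖ := by
    refine le_trans ?_ h2
    have : 1 ≤ ‖z‖ ^ (q - 1) := one_le_pow₀ hz1
    nlinarith
  have h4 : ‖kk P Q z‖ ≤ C / c * ‖z‖ ^ p := by
    unfold kk
    rw [norm_div]
    calc ‖P.eval z‖ / ‖Q.derivative.eval z‖ ≤ C * ‖z‖ ^ p / c := by gcongr
      _ = _ := by ring
  have h5 := (abs_le.1 (h.q_re z hz1)).2
  unfold gg
  rw [norm_mul, Complex.norm_exp]
  gcongr
  linarith

/-- upper bound for the derivative -/
theorem Est.F_up (h : Est q p α P Q C c R) {z : ℂ} (hz : 1 ≤ ‖z‖) :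
    ‖P.eval z * Complex.exp (Q.eval z)‖ ≤
      C * ‖z‖ ^ p * Real.exp (uu q α z + C * ‖z‖ ^ (q - 1)) := by
  have hC := h.hC
  have h1 := h.p_up z ‖z‖ hz le_rfl
  have h5 := (abs_le.1 (h.q_re z hz)).2
  rw [norm_mul, Complex.norm_exp]
  gcongr
  linarith

/-- lower bound for `g` -/
theorem Est.g_lo (h : Est q p α P Q C c R) {z : ℂ} (hz : R ≤ ‖z‖) :
    c / C * Real.exp (uu q α z - C * ‖z‖ ^ (q - 1)) ≤ ‖gg P Q z‖ * ‖z‖ ^ q := by
  have hR := h.hR
  have hc := h.hc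
  have hC := h.hC
  have hz1 : 1 ≤ ‖z‖ := hR.trans hz
  have h1 := h.p_lo z hz
  have h2 := h.q_up z hz
  have hq0 : 0 < ‖Q.derivative.eval z‖ := norm_pos_iff.2 (h.q_ne hz)
  have h3 : c / C ≤ ‖kk P Q z‖ * ‖z‖ ^ q := by
    unfold kk
    rw [norm_div, div_mul_eq_mul_div, div_le_div_iff₀ (by linarith) hq0]
    have e1 : 1 ≤ ‖z‖ ^ p := one_le_pow₀ hz1
    have e2 : ‖z‖ ^ (q - 1) ≤ ‖z‖ ^ q := pow_le_pow_right₀ hz1 (by omega)
    have e3 : c ≤ ‖P.eval z‖ := le_trans (by nlinarith) h1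
    calc c * ‖Q.derivative.eval z‖ ≤ ‖P.eval z‖ * (C * ‖z‖ ^ q) := by
          gcongr
          exact h2.trans (by gcongr)
      _ = _ := by ring
  have h5 := (abs_le.1 (h.q_re z hz1)).1
  unfold gg
  rw [norm_mul, Complex.norm_exp]
  calc c / C * Real.exp (uu q α z - C * ‖z‖ ^ (q - 1))
      ≤ (‖kk P Q z‖ * ‖z‖ ^ q) * Real.exp ((Q.eval z).re) := by
        gcongr
        linarith
    _ = _ := by ring

/-! ### the spiral -/

/-- the direction `i σ - 1` -/
noncomputable def dir (σ : ℝ) : ℂ := σ * Complex.I - 1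

/-- the spiral -/
noncomputable def sp (σ : ℝ) (z : ℂ) (t : ℝ) : ℂ := z * Complex.exp (dir σ * t)

theorem sp_norm (σ : ℝ) (z : ℂ) (t : ℝ) : ‖sp σ z t‖ = ‖z‖ * Real.exp (-t) := by
  unfold sp dir
  rw [norm_mul, Complex.norm_exp]
  congr 2
  simp

theorem sp_zero (σ : ℝ) (z : ℂ) : sp σ z 0 = z := by simp [sp]

theorem sp_deriv (σ : ℝ) (z : ℂ) (t : ℝ) : HasDerivAt (sp σ z) (dir σ * sp σ z t) t := by
  unfold sp
  have h1 : HasDerivAt (fun s : ℝ => dir σ * (s : ℂ)) (dir σ * 1) t :=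
    (Complex.ofRealCLM.hasDerivAt (x := t)).const_mul _
  have h2 := (h1.cexp).const_mul z
  refine h2.congr_deriv ?_
  ring

theorem dir_norm {σ : ℝ} (hσ : σ = 1 ∨ σ = -1) : ‖dir σ‖ ≤ 2 := by
  unfold dir
  refine (norm_sub_le _ _).trans ?_
  rw [norm_mul, Complex.norm_I, Complex.norm_real, Real.norm_eq_abs]
  rcases hσ with h | h <;> rw [h] <;> norm_num

/-- `α ζ ^ q` along the spiral -/
theorem sp_pow {q : ℕ} {α z : ℂ} {σ ψ : ℝ} (t : ℝ)
    (hψ : α * z ^ q = ‖α * z ^ q‖ * Complex.exp (ψ * Complex.I)) :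
    α * sp σ z t ^ q = ((‖α * z ^ q‖ * Real.exp (-(q * t)) : ℝ) : ℂ) *
      Complex.exp (((ψ + σ * (q * t) : ℝ) : ℂ) * Complex.I) := by
  obtain ⟨N, hN⟩ : ∃ N : ℝ, N = ‖α * z ^ q‖ := ⟨_, rfl⟩
  rw [← hN] at hψ ⊢
  unfold sp
  rw [mul_pow, ← Complex.exp_nat_mul, ← mul_assoc, hψ]
  push_cast
  rw [mul_assoc, mul_assoc, ← Complex.exp_add, ← Complex.exp_add]
  congr 2
  unfold dir
  ring

theorem cos_sin_ge {φ : ℝ} (h0 : 0 ≤ φ) (h1 : φ ≤ 2 * Real.pi / 3) :
    1 / 4 ≤ Real.cos φ + Real.sin φ := by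
  have hpi := Real.pi_pos
  have hsq := Real.sin_sq_add_cos_sq φ
  have hs1 := Real.sin_le_one φ
  have hc1 := Real.cos_le_one φ
  rcases le_total φ (Real.pi / 2) with h | h
  · have hc : 0 ≤ Real.cos φ := Real.cos_nonneg_of_mem_Icc ⟨by linarith, h⟩
    have hs : 0 ≤ Real.sin φ := Real.sin_nonneg_of_nonneg_of_le_pi h0 (by linarith)
    nlinarith
  · have hs : 0 ≤ Real.sin φ := Real.sin_nonneg_of_nonneg_of_le_pi h0 (by linarith)
    have hc : -(1 / 2) ≤ Real.cos φ := by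
      have h2 : Real.cos (2 * Real.pi / 3) ≤ Real.cos φ :=
        Real.cos_le_cos_of_nonneg_of_le_pi h0 (by linarith) h1
      have h3 : Real.cos (2 * Real.pi / 3) = -(1 / 2) := by
        have : 2 * Real.pi / 3 = Real.pi - Real.pi / 3 := by ring
        rw [this, Real.cos_pi_sub, Real.cos_pi_div_three]
      rw [h3] at h2
      exact h2
    have hc0 : Real.cos φ ≤ 0 := Real.cos_nonpos_of_pi_div_two_le_of_le h (by linarith)
    have h4 : 3 / 4 ≤ Real.sin φ ^ 2 := by nlinarith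
    nlinarith

theorem exp_ninth {x : ℝ} (hx : x ≤ 2 * Real.pi / 3) : 1 / 9 ≤ Real.exp (-x) := by
  have h1 : x ≤ 2.1 := by
    have := Real.pi_lt_d2
    linarith
  have h2 : Real.exp x ≤ 9 := by
    have h3 : Real.exp 2.1 ≤ 9 := by
      have h4 : Real.exp (0.7 : ℝ) ≤ 2.08 := by
        have h5 := Real.exp_bound' (x := 0.7) (by norm_num) (by norm_num) (n := 5) (by norm_num)
        refine h5.trans ?_
        norm_num [Finset.sum_range_succ, Nat.factorial]
      have h6 : Real.exp 2.1 = Real.exp 0.7 ^ 3 := by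
        rw [← Real.exp_nat_mul]; norm_num
      rw [h6]
      calc Real.exp 0.7 ^ 3 ≤ 2.08 ^ 3 := by gcongr
        _ ≤ 9 := by norm_num
    exact (Real.exp_le_exp.2 h1).trans h3
  rw [Real.exp_neg, one_div]
  exact inv_anti₀ (Real.exp_pos _) h2

/-- the comparison constant -/
noncomputable def C4 (q : ℕ) (C c : ℝ) : ℝ := C ^ 2 * 9 ^ q / c ^ 2

theorem C4_nonneg {q : ℕ} {C c : ℝ} (hC : 0 ≤ C) : 0 ≤ C4 q C c := by
  unfold C4
  positivity

/-- the spiral estimate -/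
theorem Est.spiral (h : Est q p α P Q C c R)
    (hF : ∀ z, HasDerivAt F (P.eval z * Complex.exp (Q.eval z)) z) {z : ℂ} {σ ψ T : ℝ}
    (hz : 9 * R ≤ ‖z‖) (hz2 : 144 * C / ‖α‖ ≤ ‖z‖) (hσ : σ = 1 ∨ σ = -1)
    (hψ : α * z ^ q = ‖α * z ^ q‖ * Complex.exp (ψ * Complex.I)) (hT : 0 ≤ T)
    (h0 : 0 ≤ σ * ψ) (h1 : σ * ψ + q * T ≤ 2 * Real.pi / 3) :
    ‖(F (sp σ z T) - gg P Q (sp σ z T)) - (F z - gg P Q z)‖ ≤
      288 * C * C4 q C c / ‖α‖ / ‖z‖ ^ q * ‖gg P Q z‖ := by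
  have hR := h.hR
  have hc := h.hc
  have hC := h.hC
  have hq := h.hq
  have hα : 0 < ‖α‖ := norm_pos_iff.2 h.hα
  have hr1 : 1 ≤ ‖z‖ := by linarith
  have hr0 : 0 < ‖z‖ := by linarith
  have hqR : (1 : ℝ) ≤ q := by exact_mod_cast hq
  obtain ⟨N, hN⟩ : ∃ N : ℝ, N = ‖α * z ^ q‖ := ⟨_, rfl⟩
  have hN2 : N = ‖α‖ * ‖z‖ ^ q := by rw [hN, norm_mul, norm_pow]
  have hN0 : 0 < N := by rw [hN2]; positivity
  set b : ℝ := N / 72 with hb
  have hb0 : 0 < b := by positivity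
  -- the small parameter
  have hsmall : 2 * C * ‖z‖ ^ (q - 1) ≤ N / 72 := by
    have e1 : ‖z‖ ^ q = ‖z‖ ^ (q - 1) * ‖z‖ := by
      rw [← pow_succ]; congr 1; omega
    rw [hN2, e1]
    rw [div_le_iff₀ hα] at hz2
    have e2 : 0 < ‖z‖ ^ (q - 1) := by positivity
    nlinarith
  -- positions on the spiral
  have hpos : ∀ t ∈ Icc (0 : ℝ) T, 1 / 9 ≤ Real.exp (-(q * t)) ∧ 1 / 9 ≤ Real.exp (-t) ∧
      Real.exp (-t) ≤ 1 := by
    intro t ht
    have e1 : (q : ℝ) * t ≤ 2 * Real.pi / 3 := by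
      have : (q : ℝ) * t ≤ q * T := by
        have := ht.2
        gcongr
      linarith
    have e2 : t ≤ q * t := by nlinarith [ht.1]
    refine ⟨exp_ninth e1, exp_ninth (e2.trans e1), ?_⟩
    rw [Real.exp_le_one_iff]
    linarith [ht.1]
  have hnorm : ∀ t ∈ Icc (0 : ℝ) T, ‖z‖ / 9 ≤ ‖sp σ z t‖ ∧ ‖sp σ z t‖ ≤ ‖z‖ := by
    intro t ht
    obtain ⟨-, e2, e3⟩ := hpos t ht
    rw [sp_norm]
    constructor <;> nlinarith
  have hge : ∀ t ∈ Icc (0 : ℝ) T, R ≤ ‖sp σ z t‖ := fun t ht => by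
    linarith [(hnorm t ht).1]
  -- decay of the real part
  have hre : ∀ t : ℝ, HasDerivAt (fun s : ℝ => (Q.eval (sp σ z s)).re)
      ((Q.derivative.eval (sp σ z t) * (dir σ * sp σ z t)).re) t := by
    intro t
    have e1 := (Q.hasDerivAt (sp σ z t)).comp t (sp_deriv σ z t)
    have e2 := Complex.reCLM.hasFDerivAt.comp_hasDerivAt t e1
    exact e2
  have hre2 : ∀ t ∈ Icc (0 : ℝ) T,
      (Q.derivative.eval (sp σ z t) * (dir σ * sp σ z t)).re ≤ -b := by
    intro t ht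
    obtain ⟨e1, e2, e3⟩ := hpos t ht
    obtain ⟨n1, n2⟩ := hnorm t ht
    have hζ1 : 1 ≤ ‖sp σ z t‖ := hR.trans (hge t ht)
    set ζ := sp σ z t with hζ
    have a1 : Q.derivative.eval ζ * (dir σ * ζ) = dir σ * (q * (α * ζ ^ q)) +
        dir σ * ((Q.derivative.eval ζ - q * α * ζ ^ (q - 1)) * ζ) := by
      have : ζ ^ q = ζ ^ (q - 1) * ζ := by
        rw [← pow_succ]; congr 1; omega
      rw [this]
      ring
    have a2 : ‖dir σ * ((Q.derivative.eval ζ - q * α * ζ ^ (q - 1)) * ζ)‖ ≤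
        2 * C * ‖z‖ ^ (q - 1) := by
      rw [norm_mul, norm_mul]
      calc ‖dir σ‖ * (‖Q.derivative.eval ζ - q * α * ζ ^ (q - 1)‖ * ‖ζ‖)
          ≤ 2 * (C * ‖ζ‖ ^ (q - 1)) :=
            mul_le_mul (dir_norm hσ) (h.q_as ζ hζ1) (by positivity) (by norm_num)
        _ ≤ 2 * (C * ‖z‖ ^ (q - 1)) := by gcongr
        _ = _ := by ring
    have a3 : (dir σ * (q * (α * ζ ^ q))).re ≤ -(N / 36) := by
      rw [hζ, sp_pow t hψ, ← hN]
      set φ : ℝ := σ * ψ + q * t with hφ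
      have f0 : 0 ≤ φ := by
        have : 0 ≤ (q : ℝ) * t := mul_nonneg (by positivity) ht.1
        linarith
      have f1 : φ ≤ 2 * Real.pi / 3 := by
        have : (q : ℝ) * t ≤ q * T := by
          have := ht.2
          gcongr
        linarith
      have f2 := cos_sin_ge f0 f1
      have f3 : Real.cos (ψ + σ * (q * t)) = Real.cos φ ∧
          σ * Real.sin (ψ + σ * (q * t)) = Real.sin φ := by
        rcases hσ with hs | hs
        · rw [hφ, hs]
          simp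
        · rw [hφ, hs]
          have : ψ + -1 * (q * t) = -(-1 * ψ + q * t) := by ring
          rw [this, Real.cos_neg, Real.sin_neg]
          simp
      have f4 : (dir σ * (q * (((N * Real.exp (-(q * t)) : ℝ) : ℂ) *
          Complex.exp (((ψ + σ * (q * t) : ℝ) : ℂ) * Complex.I)))).re =
          q * (N * Real.exp (-(q * t))) * (-(Real.cos φ + Real.sin φ)) := by
        rw [Complex.exp_mul_I, ← Complex.ofReal_cos, ← Complex.ofReal_sin]
        have g1 : dir σ * ((q : ℂ) * (((N * Real.exp (-(q * t)) : ℝ) : ℂ) *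
            (((Real.cos (ψ + σ * (q * t)) : ℝ) : ℂ) +
              ((Real.sin (ψ + σ * (q * t)) : ℝ) : ℂ) * Complex.I))) =
            ((q * (N * Real.exp (-(q * t))) : ℝ) : ℂ) * (dir σ *
            (((Real.cos (ψ + σ * (q * t)) : ℝ) : ℂ) +
              ((Real.sin (ψ + σ * (q * t)) : ℝ) : ℂ) * Complex.I)) := by
          push_cast
          ring
        rw [g1, Complex.re_ofReal_mul]
        congr 1
        rw [← f3.1, ← f3.2]
        generalize Real.cos (ψ + σ * (q * t)) = A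
        generalize Real.sin (ψ + σ * (q * t)) = A'
        unfold dir
        simp
        ring
      rw [f4]
      have f5 : N / 9 ≤ N * Real.exp (-(q * t)) := by nlinarith
      have f6 : N / 9 ≤ q * (N * Real.exp (-(q * t))) := by nlinarith
      nlinarith
    have a4 := Complex.abs_re_le_norm
      (dir σ * ((Q.derivative.eval ζ - q * α * ζ ^ (q - 1)) * ζ))
    rw [a1, Complex.add_re]
    have a5 := (abs_le.1 a4).2
    linarith
  have hdec : ∀ t ∈ Icc (0 : ℝ) T, (Q.eval (sp σ z t)).re ≤ (Q.eval z).re - b * t := by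
    intro t ht
    have e1 := (convex_Icc (0 : ℝ) T).image_sub_le_mul_sub_of_deriv_le
      (f := fun s : ℝ => (Q.eval (sp σ z s)).re) (C := -b)
      (fun s _ => (hre s).continuousAt.continuousWithinAt)
      (fun s _ => (hre s).differentiableAt.differentiableWithinAt)
      (fun s hs => by
        rw [(hre s).deriv]
        exact hre2 s (interior_subset hs))
      0 (left_mem_Icc.2 hT) t ht ht.1
    simp only [sp_zero, sub_zero] at e1
    linarith
  -- decay of `g`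
  have hg : ∀ t ∈ Icc (0 : ℝ) T, ‖gg P Q (sp σ z t)‖ ≤ C4 q C c * ‖gg P Q z‖ * Real.exp (-(b * t)) := by
    intro t ht
    obtain ⟨n1, n2⟩ := hnorm t ht
    have hζR := hge t ht
    have hzR : R ≤ ‖z‖ := by linarith
    set ζ := sp σ z t with hζ
    have k1 : ‖kk P Q ζ‖ ≤ C4 q C c * ‖kk P Q z‖ := by
      have i1 : ‖P.eval ζ‖ ≤ C / c * ‖P.eval z‖ := by
        calc ‖P.eval ζ‖ ≤ C * ‖z‖ ^ p := h.p_up ζ ‖z‖ hr1 n2
          _ = C / c * (c * ‖z‖ ^ p) := by field_simp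
          _ ≤ C / c * ‖P.eval z‖ := by
              gcongr
              exact h.p_lo z hzR
      have i2 : c / (C * 9 ^ q) * ‖Q.derivative.eval z‖ ≤ ‖Q.derivative.eval ζ‖ := by
        calc c / (C * 9 ^ q) * ‖Q.derivative.eval z‖ ≤ c / (C * 9 ^ q) * (C * ‖z‖ ^ (q - 1)) := by
              gcongr
              exact h.q_up z hzR
          _ = c * (‖z‖ ^ (q - 1) / 9 ^ q) := by field_simp
          _ ≤ c * (‖z‖ / 9) ^ (q - 1) := by
              rw [div_pow]
              gcongr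
              · norm_num
              · omega
          _ ≤ c * ‖ζ‖ ^ (q - 1) := by gcongr
          _ ≤ _ := h.q_lo ζ hζR
      unfold kk
      rw [norm_div, norm_div]
      have hq1 : 0 < ‖Q.derivative.eval z‖ := norm_pos_iff.2 (h.q_ne hzR)
      have hq2 : 0 < ‖Q.derivative.eval ζ‖ := norm_pos_iff.2 (h.q_ne hζR)
      calc ‖P.eval ζ‖ / ‖Q.derivative.eval ζ‖
          ≤ (C / c * ‖P.eval z‖) / (c / (C * 9 ^ q) * ‖Q.derivative.eval z‖) := by gcongr
        _ = _ := by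
            unfold C4
            field_simp
    unfold gg
    rw [norm_mul, norm_mul, Complex.norm_exp, Complex.norm_exp]
    have hd := hdec t ht
    have e3 : Real.exp (Q.eval ζ).re ≤ Real.exp (Q.eval z).re * Real.exp (-(b * t)) := by
      rw [← Real.exp_add]
      exact Real.exp_le_exp.2 (by linarith)
    have hC4 : 0 ≤ C4 q C c := C4_nonneg (by linarith)
    calc ‖kk P Q ζ‖ * Real.exp (Q.eval ζ).re
        ≤ (C4 q C c * ‖kk P Q z‖) * (Real.exp (Q.eval z).re * Real.exp (-(b * t))) := by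
          gcongr
      _ = _ := by ring
  -- integration
  have hderiv : ∀ t ∈ Icc (0 : ℝ) T, ∃ D : ℂ,
      HasDerivAt (fun s : ℝ => F (sp σ z s) - gg P Q (sp σ z s) - (F z - gg P Q z)) D t ∧
      ‖D‖ ≤ 4 * C * C4 q C c * ‖gg P Q z‖ * Real.exp (-(b * t)) := by
    intro t ht
    obtain ⟨D, hD, hD2⟩ := h.hasDeriv hF (hge t ht)
    refine ⟨D * (dir σ * sp σ z t), ?_, ?_⟩
    · exact (hD.comp t (sp_deriv σ z t)).sub_const _
    · rw [norm_mul, norm_mul]
      calc ‖D‖ * (‖dir σ‖ * ‖sp σ z t‖) = ‖dir σ‖ * (‖D‖ * ‖sp σ z t‖) := by ring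
        _ ≤ 2 * (2 * C * (C4 q C c * ‖gg P Q z‖ * Real.exp (-(b * t)))) := by
            refine mul_le_mul (dir_norm hσ) (hD2.trans ?_) (by positivity) (by norm_num)
            exact mul_le_mul_of_nonneg_left (hg t ht) (by positivity)
        _ = _ := by ring
  choose! D hD hD2 using hderiv
  set M : ℝ := 4 * C * C4 q C c * ‖gg P Q z‖ / b with hM
  have hM0 : 0 ≤ M := by
    have : 0 ≤ C4 q C c := by unfold C4; positivity
    positivity
  have key := image_norm_le_of_norm_deriv_right_le_deriv_boundary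
    (f := fun s : ℝ => F (sp σ z s) - gg P Q (sp σ z s) - (F z - gg P Q z)) (f' := D)
    (a := 0) (b := T) (fun t ht => (hD t ht).continuousAt.continuousWithinAt)
    (fun t ht => (hD t ⟨ht.1, ht.2.le⟩).hasDerivWithinAt)
    (B := fun t => M * (1 - Real.exp (-(b * t))))
    (B' := fun t => M * b * Real.exp (-(b * t)))
    (by simp [sp_zero])
    (fun t => by
      have e1 : HasDerivAt (fun s : ℝ => -(b * s)) (-(b * 1)) t := ((hasDerivAt_id t).const_mul b).neg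
      have e2 := ((e1.exp).const_sub 1).const_mul M
      refine e2.congr_deriv ?_
      ring)
    (fun t ht => by
      refine (hD2 t ⟨ht.1, ht.2.le⟩).trans (le_of_eq ?_)
      rw [hM]
      field_simp)
    (right_mem_Icc.2 hT)
  refine key.trans ?_
  have e4 : M * (1 - Real.exp (-(b * T))) ≤ M := by
    have := Real.exp_pos (-(b * T))
    nlinarith
  refine e4.trans (le_of_eq ?_)
  rw [hM, hb, hN2]
  field_simp
  ring

end Pool.Agent.Helper18.EF
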