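import Pool.Agent.Helper18.EF.Valley

/-! # The functions with `F' = P e^Q`: the global estimate -/

set_option autoImplicit false

open Filter Topology Metric Set MeasureTheory Pool.Agent.Helper34.EF

namespace Pool.Agent.Helper18.EF

open Polynomial

variable {q p : ℕ} {α : ℂ} {P Q : ℂ[X]} {C c R : ℝ} {F : ℂ → ℂ}

/-- the centre directions -/
def DD (q : ℕ) (α : ℂ) : Set ℂ := {ω | ‖ω‖ = 1 ∧ α * ω ^ q = -(‖α‖ : ℂ)}

theorem DD_finite (hq : 1 ≤ q) (hα : α ≠ 0) : (DD q α).Finite := by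
  set T : ℂ[X] := Polynomial.C α * X ^ q + Polynomial.C (‖α‖ : ℂ) with hT
  have hT0 : T ≠ 0 := by
    intro h0
    have h1 : T.coeff q = α := by
      rw [hT, coeff_add, coeff_C_mul, coeff_X_pow, if_pos rfl, mul_one,
        coeff_C_of_ne_zero (by omega), add_zero]
    rw [h0, coeff_zero] at h1
    exact hα h1.symm
  refine (Polynomial.finite_setOfPred_isRoot hT0).subset ?_
  rintro ω ⟨-, h⟩
  show T.IsRoot ω
  rw [Polynomial.IsRoot, hT, eval_add, eval_mul, eval_C, eval_pow, eval_X, eval_C, h]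
  ring

theorem DD_nonempty (hq : 1 ≤ q) (hα : α ≠ 0) : (DD q α).Nonempty := by
  obtain ⟨ω, hω⟩ := IsAlgClosed.exists_pow_nat_eq (-(‖α‖ : ℂ) / α) (by omega : 0 < q)
  have h1 : α * ω ^ q = -(‖α‖ : ℂ) := by rw [hω]; field_simp
  refine ⟨ω, ?_, h1⟩
  have h2 : ‖ω‖ ^ q = 1 := by
    rw [← norm_pow, hω, norm_div, norm_neg, Complex.norm_real, norm_norm, div_self]
    exact norm_ne_zero_iff.2 hα
  exact (pow_eq_one_iff_of_nonneg (norm_nonneg _) (by omega)).1 h2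

theorem dir_exists (hq : 1 ≤ q) {z : ℂ} (hz : z ≠ 0) {ψ : ℝ}
    (hψ : α * z ^ q = ‖α * z ^ q‖ * Complex.exp (ψ * Complex.I)) (hψ2 : |ψ| ≤ Real.pi) :
    ∃ ω ∈ DD q α, ∃ y : ℝ, z = ‖z‖ * Complex.exp (y * Complex.I) * ω ∧
      |q * y| = Real.pi - |ψ| := by
  have hz0 : (‖z‖ : ℂ) ≠ 0 := by exact_mod_cast norm_ne_zero_iff.2 hz
  have hq0 : (q : ℝ) ≠ 0 := by
    have : (1 : ℝ) ≤ q := by exact_mod_cast hq
    linarith
  obtain ⟨σ, hσ, hσ1⟩ : ∃ σ : ℝ, (σ = 1 ∨ σ = -1) ∧ σ * ψ = |ψ| := by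
    rcases le_total 0 ψ with h | h
    · exact ⟨1, Or.inl rfl, by rw [abs_of_nonneg h, one_mul]⟩
    · exact ⟨-1, Or.inr rfl, by rw [abs_of_nonpos h]; ring⟩
  set y : ℝ := (ψ - σ * Real.pi) / q with hy
  have hqy : q * y = ψ - σ * Real.pi := by rw [hy]; field_simp
  refine ⟨z / ‖z‖ * Complex.exp (-(y * Complex.I)), ⟨?_, ?_⟩, y, ?_, ?_⟩
  · rw [norm_mul, norm_div, Complex.norm_real, norm_norm, div_self (norm_ne_zero_iff.2 hz),
      one_mul]
    have : -((y : ℂ) * Complex.I) = ((-y : ℝ) : ℂ) * Complex.I := by push_cast; ring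
    rw [this, Complex.norm_exp_ofReal_mul_I]
  · have e1 : Complex.exp (-(y * Complex.I)) ^ q = Complex.exp (-(ψ * Complex.I)) * -1 := by
      rw [← Complex.exp_nat_mul]
      have h0 : (q : ℂ) * -(y * Complex.I) =
          -(ψ * Complex.I) + (σ * Real.pi : ℝ) * Complex.I := by
        have h1 : ((q * y : ℝ) : ℂ) = ((ψ - σ * Real.pi : ℝ) : ℂ) := by rw [hqy]
        push_cast at h1 ⊢
        linear_combination (-Complex.I) * h1
      rw [h0, Complex.exp_add]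
      congr 1
      rcases hσ with h | h
      · rw [h, one_mul, Complex.exp_pi_mul_I]
      · rw [h]
        push_cast
        rw [neg_one_mul, neg_mul, Complex.exp_neg, Complex.exp_pi_mul_I]
        norm_num
    rw [mul_pow, div_pow, e1]
    have e2 : (‖z‖ : ℂ) ^ q ≠ 0 := pow_ne_zero _ hz0
    have e3 : α * (z ^ q / (‖z‖ : ℂ) ^ q * (Complex.exp (-(ψ * Complex.I)) * -1)) =
        (α * z ^ q) * (Complex.exp (-(ψ * Complex.I)) * -1) / (‖z‖ : ℂ) ^ q := by ring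
    have e4 : Complex.exp (ψ * Complex.I) * Complex.exp (-(ψ * Complex.I)) = 1 := by
      rw [← Complex.exp_add]; simp
    rw [e3, hψ, norm_mul, norm_pow, div_eq_iff e2]
    push_cast
    linear_combination (-(‖α‖ : ℂ) * (‖z‖ : ℂ) ^ q) * e4
  · have e4 : Complex.exp (y * Complex.I) * Complex.exp (-(y * Complex.I)) = 1 := by
      rw [← Complex.exp_add]; simp
    have e5 : (‖z‖ : ℂ) * Complex.exp (y * Complex.I) *
        (z / ‖z‖ * Complex.exp (-(y * Complex.I))) =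
        z * (Complex.exp (y * Complex.I) * Complex.exp (-(y * Complex.I))) := by
      field_simp
    rw [e5, e4, mul_one]
  · rw [hqy]
    rcases hσ with h | h
    · rw [h] at hσ1 ⊢
      have h2 : ψ = |ψ| := by linarith
      rw [abs_of_nonpos (by linarith [abs_nonneg ψ])]
      linarith
    · rw [h] at hσ1 ⊢
      have h2 : ψ = -|ψ| := by linarith
      rw [abs_of_nonneg (by linarith [abs_nonneg ψ])]
      linarith

/-- the limits along the centre directions -/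
def Lim (q : ℕ) (α : ℂ) (F a : ℂ → ℂ) (R2 : ℝ) : Prop :=
  3 ≤ R2 ∧ ∀ ω ∈ DD q α, ∀ t : ℝ, R2 ≤ t →
    ‖F (t * ω) - a ω‖ ≤ Real.exp (3 / 4 * -(‖α‖ * t ^ q))

theorem exists_lim (h : Est q p α P Q C c R)
    (hF : ∀ z, HasDerivAt F (P.eval z * Complex.exp (Q.eval z)) z) :
    ∃ a R2, Lim q α F a R2 := by
  obtain ⟨R2, h3, h4⟩ := h.ray hF
  choose! a ha using h4
  exact ⟨a, R2, h3, fun ω hω => ha ω hω.1 hω.2⟩

theorem K0_pos (p : ℕ) {C c : ℝ} (hC : 1 ≤ C) : 8 ≤ K0 p C c := by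
  unfold K0
  have h1 : 0 ≤ Real.log C := Real.log_nonneg hC
  have h2 : 0 ≤ |Real.log (C / c)| := abs_nonneg _
  have h3 : (0 : ℝ) ≤ p := Nat.cast_nonneg p
  linarith

/-- the estimate in the valleys, with given centre -/
theorem Est.valley (h : Est q p α P Q C c R)
    (hF : ∀ z, HasDerivAt F (P.eval z * Complex.exp (Q.eval z)) z) {a : ℂ → ℂ} {R2 : ℝ}
    (hl : Lim q α F a R2) {z ω : ℂ} {y : ℝ} (hω : ω ∈ DD q α)
    (hz : z = ‖z‖ * Complex.exp (y * Complex.I) * ω) (hR : R ≤ ‖z‖) (hR2 : R2 ≤ ‖z‖)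
    (hy : |q * y| ≤ Real.pi / 2)
    (hu : uu q α z ≤ -(K0 p C c * ‖z‖ ^ (q - 1) * Real.log ‖z‖)) :
    ‖F z - a ω‖ ≤ Real.exp (uu q α z / 2) := by
  have hz3 : 3 ≤ ‖z‖ := hl.1.trans hR2
  have huz : uu q α z = -(‖α‖ * ‖z‖ ^ q * Real.cos (q * y)) := by
    conv_lhs => rw [hz]
    exact uu_dir hω.2
  obtain ⟨-, -, h3⟩ := h.valley_der hR hz3 hu
  have h1 := h.arc hF (r := ‖z‖) (y := y) hR hz3 hω.1 hω.2 hy (by rw [← huz]; exact hu)
  rw [← hz, ← huz] at h1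
  have h2 := hl.2 ω hω ‖z‖ hR2
  have h2' : ‖F (‖z‖ * ω) - a ω‖ ≤ Real.exp (3 / 4 * uu q α z) := by
    refine h2.trans (Real.exp_le_exp.2 ?_)
    rw [huz]
    have e1 : 0 ≤ ‖α‖ * ‖z‖ ^ q := by positivity
    have e2 := Real.cos_le_one (q * y)
    nlinarith
  have h4 : ‖z‖ ^ 2 ≤ Real.exp (-(uu q α z) / 4) := by
    have : ‖z‖ ^ 2 = Real.exp (2 * Real.log ‖z‖) := by
      rw [two_mul, Real.exp_add, Real.exp_log (by linarith)]; ring
    rw [this]
    exact Real.exp_le_exp.2 h3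
  have h5 : Real.exp (uu q α z / 2) =
      Real.exp (-(uu q α z) / 4) * Real.exp (3 / 4 * uu q α z) := by
    rw [← Real.exp_add]; congr 1; ring
  calc ‖F z - a ω‖ ≤ ‖F z - F (‖z‖ * ω)‖ + ‖F (‖z‖ * ω) - a ω‖ :=
        norm_sub_le_norm_sub_add_norm_sub _ _ _
    _ ≤ 2 * ‖z‖ * Real.exp (3 / 4 * uu q α z) + Real.exp (3 / 4 * uu q α z) :=
        add_le_add h1 h2'
    _ = (2 * ‖z‖ + 1) * Real.exp (3 / 4 * uu q α z) := by ring
    _ ≤ Real.exp (-(uu q α z) / 4) * Real.exp (3 / 4 * uu q α z) := by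
        gcongr
        nlinarith
    _ = _ := h5.symm

/-- the estimate in the valleys -/
theorem Est.valley' (h : Est q p α P Q C c R)
    (hF : ∀ z, HasDerivAt F (P.eval z * Complex.exp (Q.eval z)) z) {a : ℂ → ℂ} {R2 : ℝ}
    (hl : Lim q α F a R2) {z : ℂ} (hR : R ≤ ‖z‖) (hR2 : R2 ≤ ‖z‖)
    (hu : uu q α z ≤ -(K0 p C c * ‖z‖ ^ (q - 1) * Real.log ‖z‖)) :
    ∃ ω ∈ DD q α, ‖F z - a ω‖ ≤ Real.exp (uu q α z / 2) := by
  have hz3 : 3 ≤ ‖z‖ := hl.1.trans hR2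
  have hz0 : z ≠ 0 := by
    rintro rfl
    rw [norm_zero] at hz3
    linarith
  obtain ⟨ω, hω, y, hy, hy2⟩ := dir_exists (α := α) h.hq hz0
    (Complex.norm_mul_exp_arg_mul_I _).symm (Complex.abs_arg_le_pi _)
  refine ⟨ω, hω, h.valley hF hl hω hy hR hR2 ?_ hu⟩
  by_contra hcon
  push Not at hcon
  have huz : uu q α z = -(‖α‖ * ‖z‖ ^ q * Real.cos (q * y)) := by
    conv_lhs => rw [hy]
    exact uu_dir hω.2
  have hcos : Real.cos (q * y) ≤ 0 := by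
    rw [← Real.cos_abs]
    exact Real.cos_nonpos_of_pi_div_two_le_of_le hcon.le (by
      rw [hy2]
      linarith [abs_nonneg (Complex.arg (α * z ^ q)), Real.pi_pos])
  have e1 : 0 ≤ ‖α‖ * ‖z‖ ^ q := by positivity
  have e2 : 0 ≤ uu q α z := by rw [huz]; nlinarith
  have e3 : 0 < K0 p C c * ‖z‖ ^ (q - 1) * Real.log ‖z‖ := by
    have := K0_pos p (c := c) h.hC
    have := one_le_log hz3
    have : 0 < ‖z‖ ^ (q - 1) := by positivity
    positivity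
  linarith

/-- deep in the valleys -/
theorem Est.half (h : Est q p α P Q C c R)
    (hF : ∀ z, HasDerivAt F (P.eval z * Complex.exp (Q.eval z)) z) {a : ℂ → ℂ} {R2 : ℝ}
    (hl : Lim q α F a R2) {R3 : ℝ} (hlow : ∀ r, R3 ≤ r →
      K0 p C c * (r ^ (q - 1) * (1 + Real.log r)) ≤ ‖α‖ / 2 * r ^ q) {w : ℂ}
    (hR : R ≤ ‖w‖) (hR2 : R2 ≤ ‖w‖) (hR3 : R3 ≤ ‖w‖)
    (hu : uu q α w ≤ -(‖α‖ / 2 * ‖w‖ ^ q)) :
    uu q α w ≤ -(K0 p C c * ‖w‖ ^ (q - 1) * Real.log ‖w‖) ∧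
    ∃ ω ∈ DD q α, ‖F w - a ω‖ ≤ Real.exp (-(‖α‖ / 4 * ‖w‖ ^ q)) ∧
      ‖gg P Q w‖ ≤ Real.exp (-(‖α‖ / 4 * ‖w‖ ^ q)) := by
  have hw3 : 3 ≤ ‖w‖ := hl.1.trans hR2
  have hu2 : uu q α w ≤ -(K0 p C c * ‖w‖ ^ (q - 1) * Real.log ‖w‖) := by
    have h1 := hlow ‖w‖ hR3
    have h2 : 0 < K0 p C c * ‖w‖ ^ (q - 1) := by
      have := K0_pos p (c := c) h.hC
      positivity
    nlinarith
  refine ⟨hu2, ?_⟩
  obtain ⟨ω, hω, h1⟩ := h.valley' hF hl hR hR2 hu2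
  obtain ⟨-, h3, -⟩ := h.valley_der hR hw3 hu2
  have h4 : 0 ≤ ‖α‖ * ‖w‖ ^ q := by positivity
  refine ⟨ω, hω, h1.trans (Real.exp_le_exp.2 (by linarith)),
    h3.trans (Real.exp_le_exp.2 (by linarith))⟩

theorem cos_two_pi_div_three : Real.cos (2 * Real.pi / 3) = -(1 / 2) := by
  have : 2 * Real.pi / 3 = Real.pi - Real.pi / 3 := by ring
  rw [this, Real.cos_pi_sub, Real.cos_pi_div_three]

theorem uu_polar {w : ℂ} {N φ : ℝ} (hw : α * w ^ q = (N : ℂ) * Complex.exp (φ * Complex.I)) :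
    uu q α w = N * Real.cos φ := by
  unfold uu
  rw [hw, Complex.re_ofReal_mul, Complex.exp_ofReal_mul_I_re]

/-- the global estimate -/
theorem Est.star (h : Est q p α P Q C c R)
    (hF : ∀ z, HasDerivAt F (P.eval z * Complex.exp (Q.eval z)) z) {a : ℂ → ℂ} {R2 : ℝ}
    (hl : Lim q α F a R2) : ∃ C5 c6 R6 : ℝ, 0 ≤ C5 ∧ 0 < c6 ∧ R ≤ R6 ∧ 3 ≤ R6 ∧
      ∀ z, R6 ≤ ‖z‖ → ∃ ω ∈ DD q α, ‖F z - gg P Q z - a ω‖ ≤
        C5 / ‖z‖ ^ q * ‖gg P Q z‖ + 2 * Real.exp (-(c6 * ‖z‖ ^ q)) := by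
  have hR := h.hR
  have hc := h.hc
  have hC := h.hC
  have hq := h.hq
  have hqR : (1 : ℝ) ≤ q := by exact_mod_cast hq
  have hα : 0 < ‖α‖ := norm_pos_iff.2 h.hα
  obtain ⟨R3, hR3, hlow⟩ := low_order q hq (K0 p C c) (c := ‖α‖ / 2) (by positivity)
  set R6 : ℝ := 9 * max (max R R2) (max R3 (144 * C / ‖α‖)) with hR6
  have hm1 : R ≤ max (max R R2) (max R3 (144 * C / ‖α‖)) :=
    (le_max_left _ _).trans (le_max_left _ _)
  have hm2 : R2 ≤ max (max R R2) (max R3 (144 * C / ‖α‖)) :=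
    (le_max_right _ _).trans (le_max_left _ _)
  have hm3 : R3 ≤ max (max R R2) (max R3 (144 * C / ‖α‖)) :=
    (le_max_left _ _).trans (le_max_right _ _)
  have hm4 : 144 * C / ‖α‖ ≤ max (max R R2) (max R3 (144 * C / ‖α‖)) :=
    (le_max_right _ _).trans (le_max_right _ _)
  refine ⟨288 * C * C4 q C c / ‖α‖, ‖α‖ / (4 * 9 ^ q), R6, ?_, by positivity, by linarith,
    by linarith, fun z hz => ?_⟩
  · have := C4_nonneg (q := q) (C := C) (c := c) (by linarith)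
    positivity
  have hz1 : max (max R R2) (max R3 (144 * C / ‖α‖)) ≤ ‖z‖ / 9 := by linarith
  have hz0 : 0 < ‖z‖ := by linarith
  have hψ : α * z ^ q = ‖α * z ^ q‖ * Complex.exp ((Complex.arg (α * z ^ q) : ℝ) * Complex.I) :=
    (Complex.norm_mul_exp_arg_mul_I _).symm
  have hψ2 : |Complex.arg (α * z ^ q)| ≤ Real.pi := Complex.abs_arg_le_pi _
  generalize Complex.arg (α * z ^ q) = ψ at hψ hψ2
  have h9 : ‖α‖ / (4 * 9 ^ q) * ‖z‖ ^ q = ‖α‖ / 4 * (‖z‖ / 9) ^ q := by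
    rw [div_pow]; field_simp
  have hfirst : 0 ≤ 288 * C * C4 q C c / ‖α‖ / ‖z‖ ^ q * ‖gg P Q z‖ := by
    have := C4_nonneg (q := q) (C := C) (c := c) (by linarith)
    positivity
  rcases le_total (2 * Real.pi / 3) |ψ| with hc1 | hc1
  · -- in the valley
    have hu : uu q α z ≤ -(‖α‖ / 2 * ‖z‖ ^ q) := by
      rw [uu_polar hψ, norm_mul, norm_pow]
      have e1 : Real.cos ψ ≤ -(1 / 2) := by
        rw [← Real.cos_abs, ← cos_two_pi_div_three]
        exact Real.cos_le_cos_of_nonneg_of_le_pi (by have := Real.pi_pos; positivity) hψ2 hc1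
      have e2 : 0 < ‖α‖ * ‖z‖ ^ q := by positivity
      nlinarith
    obtain ⟨-, ω, hω, h1, h2⟩ := h.half hF hl hlow (w := z) (by linarith) (by linarith)
      (by linarith) hu
    refine ⟨ω, hω, ?_⟩
    have h3 : Real.exp (-(‖α‖ / 4 * ‖z‖ ^ q)) ≤ Real.exp (-(‖α‖ / (4 * 9 ^ q) * ‖z‖ ^ q)) := by
      apply Real.exp_le_exp.2
      rw [h9]
      have : (‖z‖ / 9) ^ q ≤ ‖z‖ ^ q := by
        gcongr
        linarith
      nlinarith
    have e1 : F z - gg P Q z - a ω = (F z - a ω) - gg P Q z := by ring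
    rw [e1]
    have e2 := norm_sub_le (F z - a ω) (gg P Q z)
    linarith
  · -- the spiral
    obtain ⟨σ, hσ, hσ1⟩ : ∃ σ : ℝ, (σ = 1 ∨ σ = -1) ∧ σ * ψ = |ψ| := by
      rcases le_total 0 ψ with h | h
      · exact ⟨1, Or.inl rfl, by rw [abs_of_nonneg h, one_mul]⟩
      · exact ⟨-1, Or.inr rfl, by rw [abs_of_nonpos h]; ring⟩
    set T : ℝ := (2 * Real.pi / 3 - |ψ|) / q with hT
    have hqT : q * T = 2 * Real.pi / 3 - |ψ| := by rw [hT]; field_simp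
    have hT0 : 0 ≤ T := by
      rw [hT]
      have : 0 ≤ 2 * Real.pi / 3 - |ψ| := by linarith
      positivity
    have hsp := h.spiral hF (z := z) (σ := σ) (ψ := ψ) (T := T) (by linarith) (by linarith) hσ hψ
      hT0 (by rw [hσ1]; exact abs_nonneg _) (by rw [hσ1, hqT]; linarith)
    set w := sp σ z T with hw
    have hTle : T ≤ 2 * Real.pi / 3 := by
      have : T ≤ q * T := by nlinarith
      have := abs_nonneg ψ
      linarith
    have hnw : ‖w‖ = ‖z‖ * Real.exp (-T) := sp_norm σ z T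
    have hnw9 : ‖z‖ / 9 ≤ ‖w‖ := by
      rw [hnw]
      have := exp_ninth hTle
      nlinarith
    have hu : uu q α w ≤ -(‖α‖ / 2 * ‖w‖ ^ q) := by
      have e1 := sp_pow (q := q) (α := α) (σ := σ) T hψ
      rw [← hw] at e1
      rw [uu_polar e1]
      have e2 : Real.cos (ψ + σ * (q * T)) = -(1 / 2) := by
        rw [hqT]
        rw [← cos_two_pi_div_three]
        rcases hσ with hs | hs
        · rw [hs] at hσ1 ⊢
          congr 1
          linarith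
        · rw [hs] at hσ1 ⊢
          rw [← Real.cos_neg]
          congr 1
          linarith
      have e3 : ‖w‖ ^ q = ‖z‖ ^ q * Real.exp (-(q * T)) := by
        rw [hnw, mul_pow, ← Real.exp_nat_mul]
        congr 2
        ring
      rw [e2, e3, norm_mul, norm_pow]
      apply le_of_eq
      ring
    obtain ⟨-, ω, hω, h1, h2⟩ := h.half hF hl hlow (w := w) (by linarith) (by linarith)
      (by linarith) hu
    refine ⟨ω, hω, ?_⟩
    have h3 : Real.exp (-(‖α‖ / 4 * ‖w‖ ^ q)) ≤ Real.exp (-(‖α‖ / (4 * 9 ^ q) * ‖z‖ ^ q)) := by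
      apply Real.exp_le_exp.2
      rw [h9]
      have : (‖z‖ / 9) ^ q ≤ ‖w‖ ^ q := by gcongr
      nlinarith
    have e1 : F z - gg P Q z - a ω = ((F w - a ω) - gg P Q w) -
        ((F w - gg P Q w) - (F z - gg P Q z)) := by ring
    rw [e1]
    have e2 := norm_sub_le ((F w - a ω) - gg P Q w) ((F w - gg P Q w) - (F z - gg P Q z))
    have e3 := norm_sub_le (F w - a ω) (gg P Q w)
    linarith

end Pool.Agent.Helper18.EF
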