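import Pool.Agent.Helper18.EF.Spiral

/-! # The functions with `F' = P e^Q`: the valleys -/

set_option autoImplicit false

open Filter Topology Metric Set MeasureTheory Pool.Agent.Helper34.EF

namespace Pool.Agent.Helper18.EF

open Polynomial

variable {q p : ℕ} {α : ℂ} {P Q : ℂ[X]} {C c R : ℝ} {F : ℂ → ℂ}

/-- the size of `u` near a centre direction -/
theorem uu_dir {r y : ℝ} {ω : ℂ} (hω : α * ω ^ q = -(‖α‖ : ℂ)) :
    uu q α (r * Complex.exp (y * Complex.I) * ω) = -(‖α‖ * r ^ q * Real.cos (q * y)) := by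
  unfold uu
  have h1 : α * (r * Complex.exp (y * Complex.I) * ω) ^ q =
      (((r ^ q : ℝ) : ℂ) * Complex.exp (((q * y : ℝ) : ℂ) * Complex.I)) * (α * ω ^ q) := by
    rw [mul_pow, mul_pow, ← Complex.exp_nat_mul]
    push_cast
    have : (q : ℂ) * (y * Complex.I) = q * y * Complex.I := by ring
    rw [this]
    ring
  rw [h1, hω, Complex.exp_mul_I, ← Complex.ofReal_cos, ← Complex.ofReal_sin]
  simp only [Complex.mul_re, Complex.neg_re, Complex.ofReal_re, Complex.neg_im, Complex.ofReal_im,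
    Complex.mul_im, Complex.add_re, Complex.add_im, Complex.I_re, Complex.I_im]
  ring

theorem norm_dir {r y : ℝ} (hr : 0 ≤ r) {ω : ℂ} (hω : ‖ω‖ = 1) :
    ‖(r : ℂ) * Complex.exp (y * Complex.I) * ω‖ = r := by
  rw [norm_mul, norm_mul, hω, Complex.norm_exp_ofReal_mul_I, Complex.norm_real,
    Real.norm_of_nonneg hr]
  ring

/-- the constant of the valley estimates -/
noncomputable def K0 (p : ℕ) (C c : ℝ) : ℝ := 8 + 4 * (Real.log C + |Real.log (C / c)| + p + C)

/-- derivative and `g` in the valleys -/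
theorem Est.valley_der (h : Est q p α P Q C c R) {z : ℂ} (hz : R ≤ ‖z‖) (hz3 : 3 ≤ ‖z‖)
    (hu : uu q α z ≤ -(K0 p C c * ‖z‖ ^ (q - 1) * Real.log ‖z‖)) :
    ‖P.eval z * Complex.exp (Q.eval z)‖ ≤ Real.exp (3 / 4 * uu q α z) ∧
      ‖gg P Q z‖ ≤ Real.exp (3 / 4 * uu q α z) ∧
      2 * Real.log ‖z‖ ≤ -(uu q α z) / 4 := by
  have hc := h.hc
  have hC := h.hC
  have hr0 : 0 < ‖z‖ := by linarith
  have hl := one_le_log hz3
  have hr1 : 1 ≤ ‖z‖ ^ (q - 1) := one_le_pow₀ (by linarith)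
  have hlC : 0 ≤ Real.log C := Real.log_nonneg hC
  set L := Real.log ‖z‖ with hL
  set X := ‖z‖ ^ (q - 1) with hX
  have hXL : 1 ≤ X * L := by nlinarith
  have hXL2 : L ≤ X * L := by nlinarith
  have hXL3 : X ≤ X * L := by nlinarith
  have habs : 0 ≤ |Real.log (C / c)| := abs_nonneg _
  have habs2 := le_abs_self (Real.log (C / c))
  have hp0 : (0 : ℝ) ≤ p := Nat.cast_nonneg p
  have hu' : uu q α z ≤ -(K0 p C c * (X * L)) := by
    rw [← mul_assoc]; exact hu
  unfold K0 at hu'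
  have key : 2 * L + (Real.log C + |Real.log (C / c)| + p * L + C * X) ≤ -(uu q α z) / 4 := by
    have e1 : Real.log C ≤ Real.log C * (X * L) := by nlinarith
    have e2 : |Real.log (C / c)| ≤ |Real.log (C / c)| * (X * L) := by nlinarith
    have e3 : p * L ≤ p * (X * L) := by gcongr
    have e4 : C * X ≤ C * (X * L) := by gcongr
    nlinarith
  have hpL : 0 ≤ (p : ℝ) * L := by positivity
  have hCX : 0 ≤ C * X := by positivity
  refine ⟨?_, ?_, by linarith⟩
  · refine (h.F_up (by linarith)).trans ?_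
    rw [exp_form (by linarith) hr0]
    exact Real.exp_le_exp.2 (by rw [← hL, ← hX]; linarith)
  · refine (h.g_up hz).trans ?_
    rw [exp_form (by positivity) hr0]
    exact Real.exp_le_exp.2 (by rw [← hL, ← hX]; linarith)

/-- the arc estimate -/
theorem Est.arc (h : Est q p α P Q C c R)
    (hF : ∀ z, HasDerivAt F (P.eval z * Complex.exp (Q.eval z)) z) {r y : ℝ} {ω : ℂ}
    (hr : R ≤ r) (hr3 : 3 ≤ r) (hω1 : ‖ω‖ = 1) (hω : α * ω ^ q = -(‖α‖ : ℂ))
    (hy : |q * y| ≤ Real.pi / 2)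
    (hu : -(‖α‖ * r ^ q * Real.cos (q * y)) ≤ -(K0 p C c * r ^ (q - 1) * Real.log r)) :
    ‖F (r * Complex.exp (y * Complex.I) * ω) - F (r * ω)‖ ≤
      2 * r * Real.exp (3 / 4 * -(‖α‖ * r ^ q * Real.cos (q * y))) := by
  have hr0 : 0 < r := by linarith
  have hq := h.hq
  have hqR : (1 : ℝ) ≤ q := by exact_mod_cast hq
  have hα : 0 < ‖α‖ := norm_pos_iff.2 h.hα
  set f : ℝ → ℂ := fun t => F (r * Complex.exp ((y * t : ℝ) * Complex.I) * ω) with hf
  have hpt : ∀ t : ℝ, HasDerivAt (fun s : ℝ => (r : ℂ) * Complex.exp ((y * s : ℝ) * Complex.I) * ω)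
      ((r * Complex.exp ((y * t : ℝ) * Complex.I) * ω) * (y * Complex.I)) t := by
    intro t
    have e1 : HasDerivAt (fun s : ℝ => ((y * s : ℝ) : ℂ) * Complex.I) (y * Complex.I) t := by
      have e2 : HasDerivAt (fun s : ℝ => ((y : ℂ) * (s : ℂ)) * Complex.I) ((y : ℂ) * 1 * Complex.I) t :=
        ((Complex.ofRealCLM.hasDerivAt (x := t)).const_mul (y : ℂ)).mul_const Complex.I
      simpa using e2
    have e3 := ((e1.cexp).const_mul (r : ℂ)).mul_const ω
    refine e3.congr_deriv ?_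
    ring
  have hfd : ∀ t : ℝ, HasDerivAt f ((P.eval (r * Complex.exp ((y * t : ℝ) * Complex.I) * ω) *
      Complex.exp (Q.eval (r * Complex.exp ((y * t : ℝ) * Complex.I) * ω))) *
      ((r * Complex.exp ((y * t : ℝ) * Complex.I) * ω) * (y * Complex.I))) t :=
    fun t => (hF _).comp t (hpt t)
  have hbound : ∀ t ∈ Ico (0 : ℝ) 1,
      ‖(P.eval (r * Complex.exp ((y * t : ℝ) * Complex.I) * ω) *
      Complex.exp (Q.eval (r * Complex.exp ((y * t : ℝ) * Complex.I) * ω))) *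
      ((r * Complex.exp ((y * t : ℝ) * Complex.I) * ω) * (y * Complex.I))‖ ≤
      2 * r * Real.exp (3 / 4 * -(‖α‖ * r ^ q * Real.cos (q * y))) := by
    intro t ht
    have hnz : ‖(r : ℂ) * Complex.exp ((y * t : ℝ) * Complex.I) * ω‖ = r := norm_dir hr0.le hω1
    have hcos : Real.cos (q * y) ≤ Real.cos (q * (y * t)) := by
      rw [← Real.cos_abs (q * y), ← Real.cos_abs (q * (y * t))]
      refine Real.cos_le_cos_of_nonneg_of_le_pi (abs_nonneg _) (by linarith [Real.pi_pos]) ?_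
      rw [← mul_assoc, abs_mul (q * y)]
      have : |t| ≤ 1 := by rw [abs_of_nonneg ht.1]; exact ht.2.le
      nlinarith [abs_nonneg (q * y)]
    have hule : -(‖α‖ * r ^ q * Real.cos (q * (y * t))) ≤ -(‖α‖ * r ^ q * Real.cos (q * y)) := by
      have : 0 ≤ ‖α‖ * r ^ q := by positivity
      nlinarith
    have huz := uu_dir (q := q) (r := r) (y := y * t) hω
    have hv := h.valley_der (z := (r : ℂ) * Complex.exp ((y * t : ℝ) * Complex.I) * ω)
      (by rw [hnz]; exact hr) (by rw [hnz]; exact hr3)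
      (by rw [hnz, huz]; exact hule.trans hu)
    have hy2 : |y| ≤ 2 := by
      have e1 : |(q : ℝ) * y| = q * |y| := by rw [abs_mul, abs_of_nonneg (by positivity)]
      rw [e1] at hy
      have := Real.pi_lt_d2
      nlinarith [abs_nonneg y]
    rw [norm_mul, norm_mul (_ * ω), hnz, norm_mul (y : ℂ), Complex.norm_I, Complex.norm_real,
      Real.norm_eq_abs, mul_one]
    calc _ ≤ Real.exp (3 / 4 * -(‖α‖ * r ^ q * Real.cos (q * y))) * (r * 2) := by
          refine mul_le_mul (hv.1.trans ?_) (by gcongr) (by positivity) (Real.exp_pos _).le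
          rw [huz]
          exact Real.exp_le_exp.2 (by linarith)
      _ = _ := by ring
  have key := norm_image_sub_le_of_norm_deriv_le_segment' (f := f) (a := 0) (b := 1)
    (fun t _ => (hfd t).hasDerivWithinAt) hbound 1 (right_mem_Icc.2 zero_le_one)
  simp only [hf, mul_one, mul_zero, Complex.ofReal_zero, zero_mul, Complex.exp_zero, sub_zero]
    at key
  exact key

/-- convergence on the centre rays -/
theorem Est.ray (h : Est q p α P Q C c R)
    (hF : ∀ z, HasDerivAt F (P.eval z * Complex.exp (Q.eval z)) z) :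
    ∃ R2 : ℝ, 3 ≤ R2 ∧ ∀ ω : ℂ, ‖ω‖ = 1 → α * ω ^ q = -(‖α‖ : ℂ) → ∃ a : ℂ, ∀ t : ℝ, R2 ≤ t →
      ‖F (t * ω) - a‖ ≤ Real.exp (3 / 4 * -(‖α‖ * t ^ q)) := by
  have hc := h.hc
  have hC := h.hC
  have hq := h.hq
  have hα : 0 < ‖α‖ := norm_pos_iff.2 h.hα
  have hlC : 0 ≤ Real.log C := Real.log_nonneg hC
  have hp0 : (0 : ℝ) ≤ p := Nat.cast_nonneg p
  have hqR : (1 : ℝ) ≤ q := by exact_mod_cast hq
  obtain ⟨R3, hR3, hlow⟩ := low_order q hq (Real.log C + p + C) (c := ‖α‖ / 8) (by positivity)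
  set R2 : ℝ := max R3 (16 / ‖α‖ ^ 2) with hR2
  refine ⟨R2, hR3.trans (le_max_left _ _), fun ω hω1 hω => ?_⟩
  -- the derivative on the ray
  have hder : ∀ t : ℝ, R2 ≤ t →
      ‖P.eval (t * ω) * Complex.exp (Q.eval (t * ω)) * ω‖ ≤
        3 / 4 * ‖α‖ * q * t ^ (q - 1) * Real.exp (3 / 4 * -(‖α‖ * t ^ q)) := by
    intro t ht
    have ht3 : 3 ≤ t := hR3.trans ((le_max_left _ _).trans ht)
    have ht0 : 0 < t := by linarith
    have hnt : ‖(t : ℂ) * ω‖ = t := by
      rw [norm_mul, hω1, Complex.norm_real, Real.norm_of_nonneg ht0.le, mul_one]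
    have hut : uu q α (t * ω) = -(‖α‖ * t ^ q) := by
      have := uu_dir (q := q) (r := t) (y := 0) hω
      simpa using this
    have h1 := h.F_up (z := t * ω) (by rw [hnt]; linarith)
    rw [hnt, hut, exp_form (by linarith) ht0] at h1
    rw [norm_mul, hω1, mul_one]
    have hl := one_le_log ht3
    have hX1 : 1 ≤ t ^ (q - 1) := one_le_pow₀ (by linarith)
    have h2 := hlow t ((le_max_left _ _).trans ht)
    have h3 : Real.log C + p * Real.log t + (-(‖α‖ * t ^ q) + C * t ^ (q - 1)) ≤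
        -(7 / 8 * (‖α‖ * t ^ q)) := by
      have e0 : 1 ≤ t ^ (q - 1) * (1 + Real.log t) := by nlinarith
      have e0' : Real.log t ≤ t ^ (q - 1) * (1 + Real.log t) := by nlinarith
      have e0'' : t ^ (q - 1) ≤ t ^ (q - 1) * (1 + Real.log t) := by nlinarith
      have e1 : Real.log C ≤ Real.log C * (t ^ (q - 1) * (1 + Real.log t)) :=
        le_mul_of_one_le_right hlC e0
      have e2 : p * Real.log t ≤ p * (t ^ (q - 1) * (1 + Real.log t)) :=
        mul_le_mul_of_nonneg_left e0' hp0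
      have e3 : C * t ^ (q - 1) ≤ C * (t ^ (q - 1) * (1 + Real.log t)) :=
        mul_le_mul_of_nonneg_left e0'' (by linarith)
      nlinarith
    have h4 : Real.exp (-(7 / 8 * (‖α‖ * t ^ q))) =
        Real.exp (-(1 / 8 * (‖α‖ * t ^ q))) * Real.exp (3 / 4 * -(‖α‖ * t ^ q)) := by
      rw [← Real.exp_add]; congr 1; ring
    have h5 : Real.exp (-(1 / 8 * (‖α‖ * t ^ q))) ≤ 3 / 4 * ‖α‖ * q * t ^ (q - 1) := by
      have e1 : t ≤ t ^ q := le_self_pow₀ (by linarith) (by omega)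
      have e2 : 16 / ‖α‖ ^ 2 ≤ t := (le_max_right _ _).trans ht
      rw [div_le_iff₀ (by positivity)] at e2
      have e3 : 0 < 1 / 8 * (‖α‖ * t ^ q) := by positivity
      have e4 : Real.exp (-(1 / 8 * (‖α‖ * t ^ q))) ≤ 1 / (1 / 8 * (‖α‖ * t ^ q)) := by
        rw [Real.exp_neg, ← one_div]
        refine one_div_le_one_div_of_le e3 ?_
        linarith [Real.add_one_le_exp (1 / 8 * (‖α‖ * t ^ q))]
      refine e4.trans ?_
      rw [div_le_iff₀ e3]
      have e5 : 16 ≤ ‖α‖ ^ 2 * t ^ q := by nlinarith [sq_nonneg ‖α‖]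
      have e6 : 1 ≤ (q : ℝ) * t ^ (q - 1) := by nlinarith
      calc (1 : ℝ) ≤ 3 / 32 * (‖α‖ ^ 2 * t ^ q) * 1 := by linarith
        _ ≤ 3 / 32 * (‖α‖ ^ 2 * t ^ q) * (q * t ^ (q - 1)) := by gcongr
        _ = _ := by ring
    calc _ ≤ Real.exp (-(7 / 8 * (‖α‖ * t ^ q))) := h1.trans (Real.exp_le_exp.2 h3)
      _ = _ := h4
      _ ≤ _ := by gcongr
  -- increments
  have hinc : ∀ s t : ℝ, R2 ≤ s → s ≤ t →
      ‖F (t * ω) - F (s * ω)‖ ≤ Real.exp (3 / 4 * -(‖α‖ * s ^ q)) := by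
    intro s t hs hst
    have hline : ∀ x : ℝ, HasDerivAt (fun x : ℝ => F (x * ω) - F (s * ω))
        (P.eval (x * ω) * Complex.exp (Q.eval (x * ω)) * ω) x := by
      intro x
      have e1 : HasDerivAt (fun x : ℝ => (x : ℂ) * ω) (1 * ω) x :=
        (Complex.ofRealCLM.hasDerivAt (x := x)).mul_const ω
      have e2 := ((hF (x * ω)).comp x e1).sub_const (F (s * ω))
      rw [one_mul] at e2
      exact e2
    have hB : ∀ x : ℝ, HasDerivAt (fun x : ℝ => Real.exp (3 / 4 * -(‖α‖ * s ^ q)) -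
        Real.exp (3 / 4 * -(‖α‖ * x ^ q)))
        (3 / 4 * ‖α‖ * q * x ^ (q - 1) * Real.exp (3 / 4 * -(‖α‖ * x ^ q))) x := by
      intro x
      have e1 := ((((hasDerivAt_pow q x).const_mul ‖α‖).neg.const_mul (3 / 4 : ℝ)).exp).const_sub
        (Real.exp (3 / 4 * -(‖α‖ * s ^ q)))
      refine e1.congr_deriv ?_
      simp only [Pi.neg_apply]
      ring
    have key := image_norm_le_of_norm_deriv_right_le_deriv_boundary
      (f := fun x : ℝ => F (x * ω) - F (s * ω)) (a := s) (b := t)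
      (fun x _ => (hline x).continuousAt.continuousWithinAt)
      (fun x _ => (hline x).hasDerivWithinAt)
      (B := fun x : ℝ => Real.exp (3 / 4 * -(‖α‖ * s ^ q)) - Real.exp (3 / 4 * -(‖α‖ * x ^ q)))
      (by simp) hB (fun x hx => hder x (hs.trans hx.1)) (right_mem_Icc.2 hst)
    refine key.trans ?_
    have := Real.exp_pos (3 / 4 * -(‖α‖ * t ^ q))
    linarith
  -- the limit
  obtain ⟨N, hN⟩ := exists_nat_ge R2
  have hN3 : (3 : ℝ) ≤ N := (hR3.trans (le_max_left _ _)).trans hN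
  have hdecay : Tendsto (fun n : ℕ => 2 * Real.exp (-(3 / 4 * ‖α‖) * (n : ℝ))) atTop (𝓝 0) := by
    have e1 : Tendsto (fun n : ℕ => -(3 / 4 * ‖α‖) * (n : ℝ)) atTop atBot :=
      Tendsto.const_mul_atTop_of_neg (by linarith) tendsto_natCast_atTop_atTop
    have e2 := (Real.tendsto_exp_atBot.comp e1).const_mul 2
    simpa using e2
  have hsmall : ∀ x : ℝ, 1 ≤ x → ∀ y : ℝ, 0 ≤ y → y ≤ x →
      Real.exp (3 / 4 * -(‖α‖ * x ^ q)) ≤ Real.exp (-(3 / 4 * ‖α‖) * y) := by
    intro x hx y hy0 hy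
    apply Real.exp_le_exp.2
    have e1 : x ≤ x ^ q := le_self_pow₀ hx (by omega)
    nlinarith
  have hcau : CauchySeq fun n : ℕ => F (((n + N : ℕ) : ℝ) * ω) := by
    refine cauchySeq_of_le_tendsto_0 _ (fun n m k hn hm => ?_) hdecay
    have hb : ∀ n : ℕ, k ≤ n → ‖F (((n + N : ℕ) : ℝ) * ω) - F (((k + N : ℕ) : ℝ) * ω)‖ ≤
        Real.exp (-(3 / 4 * ‖α‖) * (k : ℝ)) := by
      intro n hn
      have e0 : (0 : ℝ) ≤ k := Nat.cast_nonneg k
      have e1 : R2 ≤ ((k + N : ℕ) : ℝ) := by push_cast; linarith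
      have e2 : ((k + N : ℕ) : ℝ) ≤ ((n + N : ℕ) : ℝ) := by exact_mod_cast (by omega)
      refine (hinc _ _ e1 e2).trans (hsmall _ ?_ _ e0 ?_)
      · push_cast; linarith
      · push_cast; linarith
    rw [dist_eq_norm]
    have e3 := norm_sub_le_norm_sub_add_norm_sub (F (((n + N : ℕ) : ℝ) * ω))
      (F (((k + N : ℕ) : ℝ) * ω)) (F (((m + N : ℕ) : ℝ) * ω))
    have e4 := hb n hn
    have e5 := hb m hm
    rw [norm_sub_rev] at e5
    linarith
  obtain ⟨a, ha⟩ := cauchySeq_tendsto_of_complete hcau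
  refine ⟨a, fun t ht => ?_⟩
  have h6 : Tendsto (fun n : ℕ => ‖F (((n + N : ℕ) : ℝ) * ω) - F (t * ω)‖) atTop
      (𝓝 ‖a - F (t * ω)‖) := (ha.sub_const _).norm
  rw [norm_sub_rev]
  refine le_of_tendsto h6 ?_
  obtain ⟨M, hM⟩ := exists_nat_ge t
  filter_upwards [eventually_ge_atTop M] with n hn
  refine hinc t _ ht ?_
  have : (M : ℝ) ≤ ((n + N : ℕ) : ℝ) := by exact_mod_cast (by omega)
  linarith

end Pool.Agent.Helper18.EF
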